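import Pool.Agent.XM.PhiN
import Pool.Agent.XM.RankGen
import Pool.Agent.XM.Generic

/-!
# XN, row N3: a generic base point

`generic_base`: for all points `c` outside a hypersurface the matrix of `P (c + letters)` has at
least the rank which it has at a given point `C0`.  `generic_perm`: for the permanent, compared
with the real rank of the matrix of the chain polynomial.
-/

set_option autoImplicit false
set_option linter.unusedSectionVars false

namespace Pool.XN

open Finset Pool.Agent.Helper87.D3 Pool.Agent.Helper41.CD Pool.XD Pool.XM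

section base

variable {L σ : Type} [Fintype L] (ty : L → Bool) {F : Type} [Field F] (D : σ → Option L)

theorem opM_ringMap {R R' : Type} [CommRing R] [CommRing R'] (f : R →+* R')
    (G : MvPolynomial L R) (a b a' b' : ℕ) :
    opM ty (MvPolynomial.map f G) a b a' b' = (opM ty G a b a' b').map f := by
  ext α γ
  rw [Matrix.map_apply]
  unfold opM
  split_ifs
  · rw [MvPolynomial.coeff_map]
  · rw [map_zero]

theorem map_sub {A A' : Type} [CommRing A] [Algebra F A] [CommRing A'] [Algebra F A']
    (f : A →ₐ[F] A') (c : σ → A) (G : MvPolynomial σ F) :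
    MvPolynomial.map f.toRingHom (sub D c G) = sub D (fun p => f (c p)) G := by
  have h : (MvPolynomial.mapAlgHom f).comp (sub D c) = sub D (fun p => f (c p)) := by
    apply MvPolynomial.algHom_ext
    intro p
    rw [AlgHom.comp_apply, sub, sub, MvPolynomial.aeval_X, MvPolynomial.aeval_X, map_add]
    congr 1
    · exact MvPolynomial.map_C _ _
    · rcases D p with _ | l
      · exact map_zero _
      · exact MvPolynomial.map_X _ _
  exact DFunLike.congr_fun h G

/-- generic base points: polynomials -/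
theorem generic_base' (P : MvPolynomial σ F) (C0 : σ → F) (a b a' b' : ℕ) :
    ∃ V : MvPolynomial σ F, V ≠ 0 ∧ ∀ c : σ → F, MvPolynomial.eval c V ≠ 0 →
      (opM ty (sub D C0 P) a b a' b').rank ≤ (opM ty (sub D c P) a b a' b').rank := by
  have key : ∀ c : σ → F, opM ty (sub D c P) a b a' b' =
      (opM ty (sub D (MvPolynomial.X : σ → MvPolynomial σ F) P) a b a' b').map
        (MvPolynomial.eval c) := by
    intro c
    have h1 := map_sub D (MvPolynomial.aeval c : MvPolynomial σ F →ₐ[F] F) MvPolynomial.X P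
    have h2 : (fun p => (MvPolynomial.aeval c : MvPolynomial σ F →ₐ[F] F) (MvPolynomial.X p)) =
        c := by
      funext p
      rw [MvPolynomial.aeval_X]
    rw [h2] at h1
    rw [← h1, opM_ringMap]
    rfl
  obtain ⟨V, hV0, hV⟩ := exists_V (MvPolynomial.eval C0)
    (opM ty (sub D (MvPolynomial.X : σ → MvPolynomial σ F) P) a b a' b')
  refine ⟨V, hV0, fun c hc => ?_⟩
  rw [key C0, key c]
  exact hV c hc

/-- generic base points: the coefficient of `lam ^ r * mu ^ E` -/
theorem generic_base (P : MvPolynomial σ F) (C0 : σ → F) {r LU : ℕ} (hr : r ≤ LU) (E LV : ℕ) :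
    ∃ V : MvPolynomial σ F, V ≠ 0 ∧ ∀ c : σ → F, MvPolynomial.eval c V ≠ 0 →
      (opM ty (sub D C0 P) LU LV (LU - r) (LV + E)).rank ≤
        (opM ty (cf r E (PhiN ty D c P)) LU LV (LU - r) (LV + E)).rank := by
  obtain ⟨V, hV0, hV⟩ := generic_base' ty D P C0 LU LV (LU - r) (LV + E)
  refine ⟨V, hV0, fun c hc => ?_⟩
  rw [opM_PhiN ty D c P hr]
  exact hV c hc

end base

section perm

/-- the real rank of the matrix of the chain polynomial is at most the rank over every field of
characteristic zero -/
theorem rank_chn_le (F : Type) [Field F] [CharZero F] (d : ℕ) (wd : ℕ → ℕ)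
    (ty : Ltr d wd → Bool) (a b a' b' : ℕ) :
    (opM ty (chn d wd ℝ) a b a' b').rank ≤ (opM ty (chn d wd F) a b a' b').rank := by
  have hmap : ∀ (R : Type) [CommRing R] (f : ℤ →+* R),
      opM ty (chn d wd R) a b a' b' = (opM ty (chn d wd ℤ) a b a' b').map f := by
    intro R _ f
    rw [← opM_ringMap]
    congr 1
    unfold chn
    rw [map_sum]
    refine sum_congr rfl fun s _ => ?_
    rw [map_prod]
    exact prod_congr rfl fun i _ => (MvPolynomial.map_X _ _).symm
  rw [hmap ℝ (Int.castRingHom ℝ), hmap F (Int.castRingHom F)]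
  exact rank_le_of_charZero _

/-- **a generic base point for the permanent** -/
theorem generic_perm (F : Type) [Field F] [CharZero F] (d : ℕ) (wd : ℕ → ℕ) (hd : 2 ≤ d)
    (hw0 : wd 0 = 1) (hw1 : wd d = 1) {n : ℕ} (hn : 1 + ∑ j ∈ Ico 1 d, wd j ≤ n)
    (ty : Ltr d wd → Bool) {r LU : ℕ} (hr : r ≤ LU) (E LV : ℕ) :
    ∃ (D : Fin n × Fin n → Option (Ltr d wd)) (V : MvPolynomial (Fin n × Fin n) F), V ≠ 0 ∧
      ∀ c : Fin n × Fin n → F, MvPolynomial.eval c V ≠ 0 →
        (opM ty (chn d wd ℝ) LU LV (LU - r) (LV + E)).rank ≤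
          (opM ty (cf r E (PhiN ty D c (Pool.CDep.permP n F))) LU LV (LU - r) (LV + E)).rank := by
  obtain ⟨C0, D, -, -, -, h⟩ := perm_edge_aeval F d wd hd hw0 hw1 hn (⟨0, by omega⟩ : Fin n)
  have h1 : sub D (fun p => (C0 p : F)) (Pool.CDep.permP n F) = chn d wd F := by
    have h2 := h (MvPolynomial (Ltr d wd) F) 0 MvPolynomial.X
    rw [zero_add, MvPolynomial.aeval_X_left_apply] at h2
    refine Eq.trans ?_ h2
    have hfun : (fun p => MvPolynomial.C (C0 p : F) + (D p).elim 0 MvPolynomial.X :
        Fin n × Fin n → MvPolynomial (Ltr d wd) F) =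
        fun p => ((C0 p : ℤ) : MvPolynomial (Ltr d wd) F) +
          (if p = ((⟨0, by omega⟩ : Fin n), (⟨0, by omega⟩ : Fin n)) then 0 else 0) +
          (D p).elim 0 MvPolynomial.X := by
      funext p
      rw [ite_self, add_zero, map_intCast]
    unfold sub
    rw [hfun]
  obtain ⟨V, hV0, hV⟩ := generic_base ty D (Pool.CDep.permP n F) (fun p => (C0 p : F)) hr E LV
  refine ⟨D, V, hV0, fun c hc => ?_⟩
  have h3 := hV c hc
  rw [h1] at h3
  exact (rank_chn_le F d wd ty _ _ _ _).trans h3

end perm

end Pool.XN
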