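import Mathlib

/-!
# XN: functions of class `C ^ m` which vanish on a set vanish to order `m` almost everywhere on it
-/

set_option autoImplicit false

namespace Pool.XN

open MeasureTheory Topology Asymptotics Filter

section Ae

variable {E : Type} [NormedAddCommGroup E] [NormedSpace ℝ E] [FiniteDimensional ℝ E]
  [MeasurableSpace E] [BorelSpace E] (μ : Measure E) [μ.IsAddHaarMeasure]

/-- a differentiable function which vanishes on a measurable set has derivative zero almost
everywhere on it -/
theorem ae_fderiv_eq_zero_real {u : E → ℝ} (hu : Differentiable ℝ u) {A : Set E}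
    (hA : MeasurableSet A) (h0 : ∀ x ∈ A, u x = 0) : ∀ᵐ x ∂μ.restrict A, fderiv ℝ u x = 0 := by
  by_cases hE : ∃ e : E, e ≠ 0
  · obtain ⟨e, he⟩ := hE
    have h1 : ApproximatesLinearOn (fun x => u x • e) (0 : E →L[ℝ] E) A 0 := by
      intro x hx y hy
      simp [h0 x hx, h0 y hy]
    have h2 := h1.norm_fderiv_sub_le μ hA (fun x => (fderiv ℝ u x).smulRight e) fun x _ =>
      ((hu x).hasFDerivAt.smul_const e).hasFDerivWithinAt
    filter_upwards [h2] with x hx
    rw [sub_zero] at hx
    have h3 : (fderiv ℝ u x).smulRight e = 0 := by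
      rw [← nnnorm_eq_zero]
      exact le_antisymm hx zero_le
    ext z
    have h4 := DFunLike.congr_fun h3 z
    simp only [ContinuousLinearMap.smulRight_apply, _root_.zero_apply,
      smul_eq_zero] at h4
    rcases h4 with h4 | h4
    · rw [h4, _root_.zero_apply]
    · exact absurd h4 he
  · push Not at hE
    refine Filter.Eventually.of_forall fun x => ?_
    ext z
    rw [hE z, map_zero, _root_.zero_apply]

theorem ae_fderiv_eq_zero {F : Type} [NormedAddCommGroup F] [NormedSpace ℝ F]
    [FiniteDimensional ℝ F] {u : E → F} (hu : Differentiable ℝ u) {A : Set E}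
    (hA : MeasurableSet A) (h0 : ∀ x ∈ A, u x = 0) : ∀ᵐ x ∂μ.restrict A, fderiv ℝ u x = 0 := by
  set b := Module.finBasis ℝ F with hb
  have h1 : ∀ i, ∀ᵐ x ∂μ.restrict A,
      fderiv ℝ (fun y => LinearMap.toContinuousLinearMap (b.coord i) (u y)) x = 0 := by
    intro i
    refine ae_fderiv_eq_zero_real μ ?_ hA fun x hx => ?_
    · exact (LinearMap.toContinuousLinearMap (b.coord i)).differentiable.comp hu
    · rw [h0 x hx, map_zero]
  filter_upwards [ae_all_iff.2 h1] with x hx
  ext z
  rw [_root_.zero_apply]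
  apply b.ext_elem
  intro i
  have h2 := hx i
  have h3 : fderiv ℝ (fun y => LinearMap.toContinuousLinearMap (b.coord i) (u y)) x =
      (LinearMap.toContinuousLinearMap (b.coord i)).comp (fderiv ℝ u x) :=
    ((LinearMap.toContinuousLinearMap (b.coord i)).hasFDerivAt.comp x (hu x).hasFDerivAt).fderiv
  rw [h3] at h2
  have h4 := DFunLike.congr_fun h2 z
  simp only [ContinuousLinearMap.comp_apply, _root_.zero_apply] at h4
  rw [map_zero, Finsupp.zero_apply]
  exact h4

/-- **a function of class `C ^ m` which vanishes on a measurable set vanishes to order `m` at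
almost every point of the set** -/
theorem ae_isBigO (m : ℕ) : ∀ {F : Type} [NormedAddCommGroup F] [NormedSpace ℝ F]
    [FiniteDimensional ℝ F] {u : E → F} (_ : ContDiff ℝ m u) {A : Set E}
    (_ : MeasurableSet A) (_ : ∀ x ∈ A, u x = 0),
    ∀ᵐ x ∂μ.restrict A, u =O[𝓝 x] fun y => ‖y - x‖ ^ m := by
  induction m with
  | zero =>
    intro F _ _ _ u hu A hA h0
    refine Filter.Eventually.of_forall fun x => ?_
    simp only [pow_zero]
    exact hu.continuous.continuousAt.isBigO_one ℝ
  | succ m ih =>
    intro F _ _ _ u hu A hA h0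
    have hd : Differentiable ℝ u := hu.differentiable (by simp)
    have hf : ContDiff ℝ m (fderiv ℝ u) := hu.fderiv_right (by norm_cast)
    have h1 := ae_fderiv_eq_zero μ hd hA h0
    have hA' : MeasurableSet (A ∩ {x | fderiv ℝ u x = 0}) :=
      hA.inter (isClosed_eq hf.continuous continuous_const).measurableSet
    have h2 := ih hf hA' fun x hx => hx.2
    rw [ae_restrict_iff' hA] at h1 ⊢
    rw [ae_restrict_iff' hA'] at h2
    filter_upwards [h1, h2] with x hx1 hx2 hxA
    have h3 := hx2 ⟨hxA, hx1 hxA⟩
    obtain ⟨K, hKpos, hK⟩ := h3.exists_pos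
    have hK := hK.bound
    obtain ⟨δ, hδ, hball⟩ := Metric.eventually_nhds_iff.1 hK
    refine IsBigO.of_bound K (Metric.eventually_nhds_iff.2 ⟨δ, hδ, fun y hy => ?_⟩)
    have h4 := (convex_closedBall x (dist y x)).norm_image_sub_le_of_norm_fderiv_le
      (𝕜 := ℝ) (f := u) (C := K * ‖y - x‖ ^ m) (fun z _ => hd z) (fun z hz => by
        have h5 := hball (lt_of_le_of_lt (Metric.mem_closedBall.1 hz) hy)
        refine h5.trans ?_
        rw [norm_pow, norm_norm]
        have h6 : ‖z - x‖ ≤ ‖y - x‖ := by
          rw [← dist_eq_norm, ← dist_eq_norm]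
          exact Metric.mem_closedBall.1 hz
        have h7 : ‖z - x‖ ^ m ≤ ‖y - x‖ ^ m := pow_le_pow_left₀ (norm_nonneg _) h6 m
        exact mul_le_mul_of_nonneg_left h7 hKpos.le) (Metric.mem_closedBall_self dist_nonneg) (Metric.mem_closedBall.2 le_rfl)
    rw [h0 x hxA, sub_zero] at h4
    rw [norm_pow, norm_norm, pow_succ, ← mul_assoc]
    exact h4

end Ae

end Pool.XN
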