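import Pool.Agent.XN.Real
import Pool.Agent.XN.Ae

/-!
# XN: smooth sums of products are equal to the permanent only on a closed set of measure zero
-/

set_option autoImplicit false

namespace Pool.XN

open Finset MvPolynomial Pool.Agent.Helper41.CD Filter Topology Asymptotics Pool.SM MeasureTheory

section contDiff

variable {σ : Type} [Fintype σ]

theorem contDiff_eval (m : ℕ) (P : MvPolynomial σ ℝ) : ContDiff ℝ m fun x : σ → ℝ => eval x P := by
  induction P using MvPolynomial.induction_on with
  | C a =>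
    simp only [eval_C]
    exact contDiff_const
  | add p q hp hq =>
    simp only [map_add]
    exact hp.add hq
  | mul_X p l hp =>
    simp only [map_mul, eval_X]
    exact hp.mul (contDiff_apply ℝ ℝ l)

/-- superpositions of functions of class `C ^ m` are of class `C ^ m` -/
theorem smCls_contDiff {m w0 w S : ℕ} (k : ℕ) {f : (σ → ℝ) → ℝ} (hf : f ∈ SmCls m w0 w S k) :
    ContDiff ℝ m f := by
  induction k generalizing f with
  | zero =>
    obtain ⟨L, h, -, hh, rfl⟩ := hf
    exact ContDiff.comp hh (contDiff_pi.2 fun i => contDiff_eval m (L i))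
  | succ k ih =>
    obtain ⟨F, h, hF, hh, rfl⟩ := hf
    refine ContDiff.comp hh (contDiff_pi.2 fun l => ?_)
    exact ContDiff.sum fun i _ => contDiff_prod fun j _ => ih (hF l i j)

theorem contDiff_permF (m n : ℕ) : ContDiff ℝ m (permF n) := by
  have h := contDiff_eval m (Pool.CDep.permP n ℝ)
  simp only [eval_permP] at h
  exact h

end contDiff

section null

/-- a polynomial which is not zero is zero only on a set of measure zero -/
theorem ae_eval_ne_zero {σ : Type} [Fintype σ] (q : MvPolynomial σ ℝ) (hq : q ≠ 0) :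
    ∀ᵐ x : σ → ℝ, eval x q ≠ 0 := by
  have hA : MeasurableSet {x : σ → ℝ | eval x q = 0} :=
    (isClosed_eq (MvPolynomial.continuous_eval q) continuous_const).measurableSet
  have h1 := ae_isBigO (volume : Measure (σ → ℝ)) (q.totalDegree + 1) (u := fun x => eval x q)
    (contDiff_eval _ q) hA fun x hx => hx
  rw [ae_restrict_iff' hA] at h1
  filter_upwards [h1] with c hc hc0
  have h2 : aeval (fun s => X s + C (c s)) q = 0 := by
    ext u
    rw [coeff_zero]
    by_cases hu : u.degree ≤ q.totalDegree
    · exact coeff_shift_eq_zero q c _ (hc hc0) u hu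
    · apply coeff_eq_zero_of_totalDegree_lt
      refine lt_of_le_of_lt (Pool.XD.totalDegree_aeval_le _ (fun s => ?_) q) ?_
      · refine (totalDegree_add _ _).trans (max_le ?_ ?_)
        · rw [totalDegree_X]
        · rw [totalDegree_C]
          exact Nat.zero_le 1
      · push Not at hu
        exact hu
  apply hq
  apply MvPolynomial.funext
  intro x
  have h3 := eval_shift c (x - c) q
  rw [sub_add_cancel, h2, map_zero] at h3
  rw [← h3, map_zero]

/-- the permanent of the lower right block is not zero almost everywhere -/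
theorem ae_rest_ne_zero (m r : ℕ) : ∀ᵐ x : Fin (m + r) × Fin (m + r) → ℝ,
    (Matrix.of fun i j : Fin r => x (Fin.natAdd m i, Fin.natAdd m j)).permanent ≠ 0 := by
  set q : MvPolynomial (Fin (m + r) × Fin (m + r)) ℝ :=
    (Matrix.of fun i j : Fin r => X (Fin.natAdd m i, Fin.natAdd m j)).permanent with hq
  have h1 : ∀ x, eval x q =
      (Matrix.of fun i j : Fin r => x (Fin.natAdd m i, Fin.natAdd m j)).permanent := by
    intro x
    rw [hq, Pool.CDep.map_permanent']
    congr 1
    ext i j
    simp
  have h2 : q ≠ 0 := by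
    intro h
    have h3 := h1 fun p => if p.1 = p.2 then 1 else 0
    have h4 : (Matrix.of fun i j : Fin r =>
        (if (Fin.natAdd m i, Fin.natAdd m j).1 = (Fin.natAdd m i, Fin.natAdd m j).2
          then (1 : ℝ) else 0)) = 1 := by
      ext i j
      rw [Matrix.one_apply]
      simp [Fin.ext_iff]
    rw [h, map_zero, h4, Matrix.permanent_one] at h3
    exact zero_ne_one h3
  filter_upwards [ae_eval_ne_zero q h2] with x hx
  rwa [h1] at hx

/-- **sums of products of smooth superpositions are equal to the permanent only on a closed set of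
measure zero** if the permanent has no such representation up to small errors -/
theorem null_of {m r k w0 w S T : ℕ} (hS : 1 ≤ S)
    (BB : ∀ (K Γ : Type) [Field K] [LinearOrderedCommGroupWithZero Γ] (v : Valuation K Γ)
      (f : Fin ((m + 1) * T) → Fin S → MvPolynomial (Fin m × Fin m) K),
      (∀ a : ℕ, a ≠ 0 → v a = 1) → (∀ i j, f i j ∈ Cls w0 w S k) →
      ¬ ∀ u, v (coeff u ((∑ i, ∏ j, f i j) - Pool.CDep.permP m K)) < 1)
    (f : Fin T → Fin S → (Fin (m + r) × Fin (m + r) → ℝ) → ℝ)
    (hf : ∀ i j, f i j ∈ SmCls (m + 1) w0 w S k) :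
    IsClosed {x | ∑ i, ∏ j, f i j x = permF (m + r) x} ∧
      volume {x | ∑ i, ∏ j, f i j x = permF (m + r) x} = 0 := by
  have hc1 : ContDiff ℝ ((m + 1 : ℕ) : WithTop ℕ∞) fun x => ∑ i, ∏ j, f i j x :=
    ContDiff.sum fun i _ => contDiff_prod fun j _ => smCls_contDiff k (hf i j)
  have hc2 := contDiff_permF (m + 1) (m + r)
  have hcl : IsClosed {x | ∑ i, ∏ j, f i j x = permF (m + r) x} :=
    isClosed_eq hc1.continuous hc2.continuous
  refine ⟨hcl, ?_⟩
  by_contra hne
  have h1 := ae_isBigO (volume : Measure (Fin (m + r) × Fin (m + r) → ℝ)) (m + 1)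
    (u := fun x => ∑ i, ∏ j, f i j x - permF (m + r) x) (hc1.sub hc2) hcl.measurableSet
    fun x hx => sub_eq_zero.2 hx
  rw [ae_restrict_iff' hcl.measurableSet] at h1
  have h3 : ∃ x ∈ {x | ∑ i, ∏ j, f i j x = permF (m + r) x},
      ((fun x => ∑ i, ∏ j, f i j x - permF (m + r) x) =O[𝓝 x] fun y => ‖y - x‖ ^ (m + 1)) ∧
        (Matrix.of fun i j : Fin r => x (Fin.natAdd m i, Fin.natAdd m j)).permanent ≠ 0 := by
    by_contra hcon
    apply hne
    rw [measure_eq_zero_iff_ae_notMem]
    filter_upwards [h1, ae_rest_ne_zero m r] with x hx1 hx2 hx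
    exact hcon ⟨x, hx, hx1 hx, hx2⟩
  obtain ⟨c, -, hO, hc⟩ := h3
  obtain ⟨K, Γ, _, _, v, f', hv, hf', hcf⟩ := real_reduce (m := m) (r := r) le_rfl hS c hc f hf hO
  exact BB K Γ v f' hv hf' hcf

end null

end Pool.XN
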