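import Pool.Agent.XD.Aff
import Pool.Agent.CDep.Lift
import Pool.Agent.SM.Order
import Pool.Agent.Helper24.SQ.Pad

/-!
# XN: from Taylor polynomials at a point to the permanent up to errors of valuation less than one

If a real polynomial `p` agrees with the permanent of size `n` at the point `C` up to terms of
order greater than `m`, then `∑ k, a k * p (C + t k * ε * y)`, divided by `ε ^ m` and by a number,
is the permanent of size `m` in the variables `y` up to coefficients divisible by `ε`.
-/

set_option autoImplicit false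

namespace Pool.XN

open Finset MvPolynomial Pool.Agent.Helper41.CD

section perm

variable {A : Type} [CommRing A]

/-- permanents of block triangular matrices -/
theorem permanent_fromBlocks {m r : Type} [Fintype m] [Fintype r] [DecidableEq m] [DecidableEq r]
    (P : Matrix m m A) (Q : Matrix m r A) (D : Matrix r r A) :
    (Matrix.fromBlocks P Q 0 D).permanent = P.permanent * D.permanent := by
  classical
  unfold Matrix.permanent
  rw [sum_mul_sum, ← sum_product', univ_product_univ]
  symm
  refine sum_of_injOn (fun σ : Equiv.Perm m × Equiv.Perm r => σ.1.sumCongr σ.2) ?_ ?_ ?_ ?_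
  · intro σ₁ _ σ₂ _ h
    have h2 : ∀ x, Equiv.Perm.sumCongr σ₁.fst σ₁.snd x = Equiv.Perm.sumCongr σ₂.fst σ₂.snd x :=
      DFunLike.congr_fun h
    simp only [Sum.map_inr, Sum.map_inl, Equiv.Perm.sumCongr_apply, Sum.forall, Sum.inl.injEq,
      Sum.inr.injEq] at h2
    ext x
    · exact h2.left x
    · exact h2.right x
  · intro σ _
    exact mem_coe.2 (mem_univ _)
  · rintro σ - hσn
    have h1 : ¬∀ x, ∃ y, Sum.inl y = σ (Sum.inl x) := by
      intro h
      apply hσn
      obtain ⟨σ₁₂, hσ₁₂⟩ := Equiv.Perm.mem_sumCongrHom_range_of_perm_mapsTo_inl (σ := σ) (by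
        rintro _ ⟨x, rfl⟩
        obtain ⟨y, hy⟩ := h x
        exact ⟨y, hy⟩)
      exact ⟨σ₁₂, mem_coe.2 (mem_univ _), hσ₁₂⟩
    push Not at h1
    obtain ⟨a, ha⟩ := h1
    rcases hx : σ (Sum.inl a) with a2 | b
    · exact absurd hx.symm (ha a2)
    · rw [Finset.prod_eq_zero (Finset.mem_univ (Sum.inl a))]
      rw [hx, Matrix.fromBlocks_apply₂₁, Matrix.zero_apply]
  · rintro ⟨σ₁, σ₂⟩ _
    rw [Fintype.prod_sum_type]
    simp only [Equiv.Perm.sumCongr_apply, Sum.map_inr, Sum.map_inl, Matrix.fromBlocks_apply₁₁,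
      Matrix.fromBlocks_apply₂₂]

/-- weights which pick the coefficient of degree `m` -/
theorem exists_weights (F : Type) [Field F] [Infinite F] (m : ℕ) :
    ∃ a t : Fin (m + 1) → F, ∀ j, j ≤ m → ∑ k, a k * t k ^ j = if j = m then 1 else 0 := by
  classical
  set t : Fin (m + 1) → F := fun k => Infinite.natEmbedding F k with ht
  have hinj : Function.Injective t := fun i j hij =>
    Fin.ext ((Infinite.natEmbedding F).injective hij)
  set V := Matrix.vandermonde t with hV
  have hdet : IsUnit V.det := by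
    rw [isUnit_iff_ne_zero, hV, Matrix.det_vandermonde_ne_zero_iff]
    exact hinj
  refine ⟨Matrix.vecMul (Pi.single (Fin.last m) 1) V⁻¹, t, fun j hj => ?_⟩
  have h1 : Matrix.vecMul (Matrix.vecMul (Pi.single (Fin.last m) (1 : F)) V⁻¹) V =
      Pi.single (Fin.last m) 1 := by
    rw [Matrix.vecMul_vecMul, Matrix.nonsing_inv_mul V hdet, Matrix.vecMul_one]
  have h2 := congrFun h1 ⟨j, by omega⟩
  have h3 : Matrix.vecMul (Matrix.vecMul (Pi.single (Fin.last m) (1 : F)) V⁻¹) V ⟨j, by omega⟩ =
      ∑ k, Matrix.vecMul (Pi.single (Fin.last m) (1 : F)) V⁻¹ k * t k ^ j := by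
    unfold Matrix.vecMul dotProduct
    rfl
  rw [← h3, h2, Pi.single_apply]
  have h4 : ((⟨j, by omega⟩ : Fin (m + 1)) = Fin.last m) ↔ j = m := by
    rw [Fin.ext_iff]
    simp
  simp only [h4]

theorem sum_prod_add {m : ℕ} (a t : Fin (m + 1) → A)
    (h : ∀ j, j ≤ m → ∑ k, a k * t k ^ j = if j = m then 1 else 0) (e : A) (c y : Fin m → A) :
    ∑ k, a k * ∏ i, (c i + t k * e * y i) = e ^ m * ∏ i, y i := by
  classical
  have h1 : ∀ k, a k * ∏ i, (c i + t k * e * y i) =
      ∑ s ∈ (univ : Finset (Fin m)).powerset, a k * t k ^ s.card *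
        (e ^ s.card * ((∏ i ∈ s, y i) * ∏ i ∈ univ \ s, c i)) := by
    intro k
    rw [prod_congr rfl fun i _ => add_comm (c i) (t k * e * y i), prod_add, mul_sum]
    refine sum_congr rfl fun s _ => ?_
    rw [prod_mul_distrib, prod_const, mul_pow]
    ring
  simp only [h1]
  rw [sum_comm]
  simp only [← sum_mul]
  rw [sum_eq_single_of_mem univ (mem_powerset.2 (Subset.refl _))]
  · rw [h _ (by rw [card_univ, Fintype.card_fin]), if_pos (by rw [card_univ, Fintype.card_fin]),
      card_univ, Fintype.card_fin, one_mul, Finset.sdiff_self, prod_empty, mul_one]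
  · intro s _ hs
    have hc : s.card < m := by
      rcases Nat.lt_or_ge s.card m with h2 | h2
      · exact h2
      · exfalso
        apply hs
        apply eq_univ_of_card
        have h3 := card_le_univ s
        rw [Fintype.card_fin] at h3 ⊢
        omega
    rw [h _ hc.le, if_neg hc.ne, zero_mul]

/-- the coefficient of degree `m` of the permanent of `C + t e [y, 0; 0, 0]` -/
theorem sum_permanent {m r : ℕ} (a t : Fin (m + 1) → A)
    (h : ∀ j, j ≤ m → ∑ k, a k * t k ^ j = if j = m then 1 else 0) (e : A)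
    (C : Matrix (Fin m ⊕ Fin r) (Fin m ⊕ Fin r) A) (y : Matrix (Fin m) (Fin m) A) :
    ∑ k, a k * (C + (t k * e) • Matrix.fromBlocks y 0 0 0).permanent =
      e ^ m * (y.permanent * C.toBlocks₂₂.permanent) := by
  rw [← permanent_fromBlocks y C.toBlocks₁₂ C.toBlocks₂₂]
  unfold Matrix.permanent
  rw [mul_sum]
  simp only [mul_sum]
  rw [sum_comm]
  refine sum_congr rfl fun σ _ => ?_
  have h1 : ∀ k, a k * ∏ i, (C + (t k * e) • Matrix.fromBlocks y 0 0 0 :
      Matrix (Fin m ⊕ Fin r) (Fin m ⊕ Fin r) A) (σ i) i =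
      (a k * ∏ i : Fin m, (C (σ (Sum.inl i)) (Sum.inl i) +
        t k * e * Matrix.fromBlocks y (0 : Matrix (Fin m) (Fin r) A) 0
          (0 : Matrix (Fin r) (Fin r) A) (σ (Sum.inl i)) (Sum.inl i))) *
        ∏ i : Fin r, C (σ (Sum.inr i)) (Sum.inr i) := by
    intro k
    rw [Fintype.prod_sum_type, mul_assoc]
    congr 2
    refine prod_congr rfl fun i _ => ?_
    rw [Matrix.add_apply, Matrix.smul_apply]
    rcases σ (Sum.inr i) with j | j
    · simp
    · simp
  simp only [h1]
  rw [← sum_mul, sum_prod_add a t h, Fintype.prod_sum_type, mul_assoc]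
  congr 1
  refine congr_arg₂ _ (prod_congr rfl fun i _ => ?_) (prod_congr rfl fun i _ => ?_)
  · rcases σ (Sum.inl i) with j | j
    · simp
    · simp
  · rcases σ (Sum.inr i) with j | j
    · simp [Matrix.toBlocks₁₂]
    · simp [Matrix.toBlocks₂₂]

end perm

section poly

variable {K Γ : Type} [Field K] [LinearOrderedCommGroupWithZero Γ]

/-- the variables in the upper left block -/
noncomputable def yvar (m r : ℕ) (K : Type) [CommRing K] :
    Matrix (Fin m ⊕ Fin r) (Fin m ⊕ Fin r) (MvPolynomial (Fin m × Fin m) K) :=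
  Matrix.fromBlocks (Matrix.of fun i j => X (i, j)) 0 0 0

/-- the variable of a place of the large matrix -/
noncomputable def yv {m r : ℕ} (K : Type) [CommRing K] (s : Fin (m + r) × Fin (m + r)) :
    MvPolynomial (Fin m × Fin m) K :=
  yvar m r K (finSumFinEquiv.symm s.1) (finSumFinEquiv.symm s.2)

theorem yv_eq {m r : ℕ} (s : Fin (m + r) × Fin (m + r)) :
    yv K s = 0 ∨ ∃ u, yv K s = X u := by
  unfold yv yvar
  rcases finSumFinEquiv.symm s.1 with i | i <;> rcases finSumFinEquiv.symm s.2 with j | j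
  · right
    exact ⟨(i, j), by simp⟩
  all_goals
    left
    simp

/-- the substitution of `C + e [y, 0; 0, 0]` in the permanent -/
theorem aeval_permP {m r : ℕ} (c : Fin (m + r) × Fin (m + r) → K) (e : K) :
    aeval (fun s => C (c s) + C e * yv K s) (Pool.CDep.permP (m + r) K) =
      (Matrix.of (fun i j => C (c (finSumFinEquiv i, finSumFinEquiv j))) +
        (C e : MvPolynomial (Fin m × Fin m) K) • yvar m r K).permanent := by
  have h1 : aeval (fun s => C (c s) + C e * yv K s) (Pool.CDep.permP (m + r) K) =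
      (aeval (fun s => C (c s) + C e * yv K s) :
        MvPolynomial (Fin (m + r) × Fin (m + r)) K →ₐ[K] MvPolynomial (Fin m × Fin m) K).toRingHom
        (Pool.CDep.permP (m + r) K) := rfl
  rw [h1]
  unfold Pool.CDep.permP
  rw [Pool.CDep.map_permanent', ← Pool.Agent.Helper24.SQ.permanent_submatrix_equiv' finSumFinEquiv]
  congr 1
  ext i j
  simp [yv]

/-- the main part of the combination -/
theorem sum_aeval_permP {m r : ℕ} (a t : Fin (m + 1) → K)
    (h : ∀ j, j ≤ m → ∑ k, a k * t k ^ j = if j = m then 1 else 0) (e : K)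
    (c : Fin (m + r) × Fin (m + r) → K) :
    ∑ k, C (a k) * aeval (fun s => C (c s) + C (t k * e) * yv K s)
        (Pool.CDep.permP (m + r) K) =
      C (e ^ m * (Matrix.of fun i j : Fin r => c (Fin.natAdd m i, Fin.natAdd m j)).permanent) *
        Pool.CDep.permP m K := by
  have h1 := sum_permanent (A := MvPolynomial (Fin m × Fin m) K) (m := m) (r := r)
    (fun k => C (a k)) (fun k => C (t k)) (fun j hj => by
      have h2 := congrArg (C : K →+* MvPolynomial (Fin m × Fin m) K) (h j hj)
      rw [map_sum] at h2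
      simp only [map_mul, map_pow] at h2
      rw [h2]
      split_ifs <;> simp) (C e)
    (Matrix.of (fun i j => C (c (finSumFinEquiv i, finSumFinEquiv j))))
    (Matrix.of fun i j => X (i, j))
  simp only [aeval_permP]
  unfold yvar
  simp only [C_mul]
  rw [h1]
  have h3 : (Matrix.of (fun i j => (C (c (finSumFinEquiv i, finSumFinEquiv j)) :
        MvPolynomial (Fin m × Fin m) K)) : Matrix (Fin m ⊕ Fin r) (Fin m ⊕ Fin r) _
        ).toBlocks₂₂.permanent =
      C (Matrix.of fun i j : Fin r => c (Fin.natAdd m i, Fin.natAdd m j)).permanent := by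
    rw [Pool.CDep.map_permanent']
    congr 1
  rw [h3, map_pow]
  unfold Pool.CDep.permP
  ring

variable (v : Valuation K Γ)

/-- the error -/
theorem v_coeff_aeval_le {m r : ℕ} {e : K} (he : v e ≤ 1)
    (g : MvPolynomial (Fin (m + r) × Fin (m + r)) K) (hg : ∀ u, v (coeff u g) ≤ 1)
    (hz : ∀ u, u.degree ≤ m → coeff u g = 0) (u : Fin m × Fin m →₀ ℕ) :
    v (coeff u (aeval (fun s => C e * yv K s) g)) ≤ v e ^ (m + 1) := by
  classical
  rw [aeval_def, eval₂_eq, coeff_sum]
  refine Valuation.map_sum_le v fun a ha => ?_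
  have h1 : ∏ i ∈ a.support, (C e * yv K i) ^ a i =
      C (e ^ a.degree) * ∏ i ∈ a.support, (yv K i) ^ a i := by
    simp only [mul_pow]
    rw [prod_mul_distrib, prod_pow_eq_pow_sum, map_pow]
    rfl
  rw [h1, MvPolynomial.algebraMap_eq, coeff_C_mul, coeff_C_mul, map_mul, map_mul, map_pow]
  have h2 : m + 1 ≤ a.degree := by
    by_contra hcon
    exact (mem_support_iff.1 ha) (hz a (by omega))
  have h3 : ∀ u', v (coeff u' (∏ i ∈ a.support, (yv K i) ^ a i)) ≤ 1 := by
    refine prod_induction _ (fun p : MvPolynomial (Fin m × Fin m) K => ∀ u', v (coeff u' p) ≤ 1)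
      (fun p q hp hq => Pool.XD.v_coeff_mul_le hp hq) ?_ ?_
    · intro u'
      rw [coeff_one]
      split_ifs
      · rw [map_one]
      · rw [map_zero]; exact zero_le
    · intro i _
      have h4 : ∀ u', v (coeff u' (yv K i)) ≤ 1 := by
        intro u'
        rcases yv_eq (K := K) i with h5 | ⟨x, h5⟩
        · rw [h5, coeff_zero, map_zero]; exact zero_le
        · rw [h5, coeff_X]
          split_ifs
          · rw [map_one]
          · rw [map_zero]; exact zero_le
      induction a i with
      | zero =>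
        intro u'
        rw [pow_zero, coeff_one]
        split_ifs
        · rw [map_one]
        · rw [map_zero]; exact zero_le
      | succ n ih =>
        rw [pow_succ]
        exact Pool.XD.v_coeff_mul_le ih h4
  calc v (coeff a g) * (v e ^ a.degree * v (coeff u (∏ i ∈ a.support, (yv K i) ^ a i)))
      ≤ 1 * (v e ^ a.degree * 1) :=
        mul_le_mul' (hg a) (mul_le_mul' le_rfl (h3 u))
    _ = v e ^ a.degree := by rw [one_mul, mul_one]
    _ ≤ v e ^ (m + 1) := pow_le_pow_right_of_le_one' he h2

end poly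

section main

variable {F K Γ : Type} [Field F] [Field K] [LinearOrderedCommGroupWithZero Γ]

theorem smul_cls {σ : Type} {w0 w S k : ℕ} {f : MvPolynomial σ K} (hf : f ∈ Cls w0 w S k) (c : K) :
    C c * f ∈ Cls w0 w S k := by
  cases k with
  | zero =>
    obtain ⟨L, Q, hL, rfl⟩ := hf
    refine ⟨L, C c * Q, hL, ?_⟩
    rw [map_mul, aeval_C]
    rfl
  | succ k =>
    obtain ⟨F, Q, hF, rfl⟩ := hf
    refine ⟨F, C c * Q, hF, ?_⟩
    rw [map_mul, aeval_C]
    rfl

theorem totalDegree_yv_le {m r : ℕ} (s : Fin (m + r) × Fin (m + r)) :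
    (yv K s).totalDegree ≤ 1 := by
  rcases yv_eq (K := K) s with h | ⟨u, h⟩
  · rw [h, totalDegree_zero]
    exact Nat.zero_le 1
  · rw [h, totalDegree_X]

/-- the shift by `c` followed by the substitution of `e y` -/
theorem aeval_shift {m r : ℕ} (ι : F →+* K) (c : Fin (m + r) × Fin (m + r) → F) (e : K)
    (p : MvPolynomial (Fin (m + r) × Fin (m + r)) F) :
    aeval (fun s => C (ι (c s)) + C e * yv K s) (map ι p) =
      aeval (fun s => C e * yv K s) (map ι (aeval (fun s => X s + C (c s)) p)) := by
  rw [Pool.CDep.map_aeval_eq, ← AlgHom.comp_apply, comp_aeval]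
  congr 2
  funext s
  simp only [map_add, map_X, map_C, aeval_X, aeval_C]
  rw [add_comm]
  rfl

/-- **the reduction**: sums of products which agree with the permanent at a point up to order `m`
give sums of products which are the permanent of size `m` up to errors of valuation less than
one -/
theorem exists_valued (v : Valuation K Γ) [Infinite F] (ι : F →+* K)
    (hι : ∀ a, a ≠ 0 → v (ι a) = 1) {ε : K} (hε0 : ε ≠ 0) (hε : v ε < 1) {m r k w0 w S T : ℕ}
    (hS : 1 ≤ S) (c : Fin (m + r) × Fin (m + r) → F)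
    (hc : (Matrix.of fun i j : Fin r => c (Fin.natAdd m i, Fin.natAdd m j)).permanent ≠ 0)
    (f : Fin T → Fin S → MvPolynomial (Fin (m + r) × Fin (m + r)) F)
    (hf : ∀ i j, f i j ∈ Cls w0 w S k)
    (hz : ∀ u, u.degree ≤ m → coeff u (aeval (fun s => X s + C (c s))
      ((∑ i, ∏ j, f i j) - Pool.CDep.permP (m + r) F)) = 0) :
    ∃ f' : Fin ((m + 1) * T) → Fin S → MvPolynomial (Fin m × Fin m) K,
      (∀ i j, f' i j ∈ Cls w0 w S k) ∧
      ∀ u, v (coeff u ((∑ i, ∏ j, f' i j) - Pool.CDep.permP m K)) < 1 := by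
  classical
  obtain ⟨a, t, hat⟩ := exists_weights F m
  have hv1 : ∀ x, v (ι x) ≤ 1 := by
    intro x
    by_cases hx : x = 0
    · rw [hx, map_zero, map_zero]; exact zero_le
    · exact (hι x hx).le
  set π : F := (Matrix.of fun i j : Fin r => c (Fin.natAdd m i, Fin.natAdd m j)).permanent with hπ
  have hπ' : (Matrix.of fun i j : Fin r => ι (c (Fin.natAdd m i, Fin.natAdd m j))).permanent =
      ι π := by
    rw [hπ, Pool.CDep.map_permanent']
    congr 1
  have hιπ : ι π ≠ 0 := by
    intro h
    have := hι π hc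
    rw [h, map_zero] at this
    exact zero_ne_one this
  have hat' : ∀ j, j ≤ m → ∑ k, ι (a k) * ι (t k) ^ j = if j = m then 1 else 0 := by
    intro j hj
    have := congrArg ι (hat j hj)
    rw [map_sum] at this
    simp only [map_mul, map_pow] at this
    rw [this]
    split_ifs <;> simp
  set b : Fin (m + 1) → K := fun k => (ε ^ m * ι π)⁻¹ * ι (a k) with hb
  set g : Fin (m + 1) → Fin (m + r) × Fin (m + r) → MvPolynomial (Fin m × Fin m) K :=
    fun k s => C (ι (c s)) + C (ι (t k) * ε) * yv K s with hg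
  have hgdeg : ∀ k s, (g k s).totalDegree ≤ 1 := by
    intro k s
    refine (totalDegree_add _ _).trans (max_le ?_ ?_)
    · rw [totalDegree_C]
      exact Nat.zero_le 1
    · refine (totalDegree_mul _ _).trans ?_
      rw [totalDegree_C, zero_add]
      exact totalDegree_yv_le s
  have hε1 : (ε ^ m * ι π) ≠ 0 := mul_ne_zero (pow_ne_zero _ hε0) hιπ
  refine ⟨fun i j => (if j.1 = 0 then C (b (finProdFinEquiv.symm i).1) else 1) *
    aeval (g (finProdFinEquiv.symm i).1) (map ι (f (finProdFinEquiv.symm i).2 j)), ?_, ?_⟩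
  · intro i j
    have h1 := Pool.XD.cls_aeval (g (finProdFinEquiv.symm i).1) (hgdeg _)
      (Pool.CDep.cls_map ι k (hf (finProdFinEquiv.symm i).2 j))
    dsimp only
    split_ifs
    · exact smul_cls h1 _
    · rw [one_mul]
      exact h1
  · -- the sum
    have hsum : (∑ i : Fin ((m + 1) * T), ∏ j : Fin S,
        (if j.1 = 0 then C (b (finProdFinEquiv.symm i).1) else 1) *
          aeval (g (finProdFinEquiv.symm i).1) (map ι (f (finProdFinEquiv.symm i).2 j))) =
        ∑ k, C (b k) * aeval (g k) (map ι (∑ i, ∏ j, f i j)) := by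
      rw [← Equiv.sum_comp finProdFinEquiv, Fintype.sum_prod_type]
      refine sum_congr rfl fun k _ => ?_
      rw [map_sum, map_sum, mul_sum]
      refine sum_congr rfl fun i _ => ?_
      rw [Equiv.symm_apply_apply, prod_mul_distrib, map_prod, map_prod]
      congr 1
      rw [prod_eq_single (⟨0, by omega⟩ : Fin S)]
      · simp
      · intro j _ hj
        rw [if_neg fun h => hj (Fin.ext h)]
      · intro h
        exact absurd (mem_univ _) h
    have hmain : ∑ k, C (b k) * aeval (g k) (map ι (Pool.CDep.permP (m + r) F)) =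
        Pool.CDep.permP m K := by
      have hmap : map ι (Pool.CDep.permP (m + r) F) = Pool.CDep.permP (m + r) K := by
        unfold Pool.CDep.permP
        rw [Pool.CDep.map_permanent']
        congr 1
        ext i j
        simp
      have h1 := sum_aeval_permP (m := m) (r := r) (fun k => ι (a k)) (fun k => ι (t k)) hat' ε
        (fun s => ι (c s))
      rw [hπ'] at h1
      have h2 : ∀ k, C (b k) * aeval (g k) (Pool.CDep.permP (m + r) K) =
          C ((ε ^ m * ι π)⁻¹) * (C (ι (a k)) *
            aeval (fun s => C (ι (c s)) + C (ι (t k) * ε) * yv K s)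
              (Pool.CDep.permP (m + r) K)) := by
        intro k
        rw [hb, C_mul, mul_assoc]
      rw [hmap]
      simp only [h2]
      rw [← mul_sum, h1, ← mul_assoc, ← C_mul, inv_mul_cancel₀ hε1, C_1, one_mul]
    have herr : (∑ k, C (b k) * aeval (g k) (map ι (∑ i, ∏ j, f i j))) - Pool.CDep.permP m K =
        ∑ k, C (b k) * aeval (fun s => C (ι (t k) * ε) * yv K s) (map ι (aeval
          (fun s => X s + C (c s)) ((∑ i, ∏ j, f i j) - Pool.CDep.permP (m + r) F))) := by
      rw [← hmain, ← sum_sub_distrib]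
      refine sum_congr rfl fun k _ => ?_
      rw [← aeval_shift, ← mul_sub, ← map_sub, ← map_sub]
    intro u
    rw [hsum, herr, coeff_sum]
    refine Valuation.map_sum_lt v one_ne_zero fun k _ => ?_
    rw [coeff_C_mul, map_mul]
    have hvε0 : v ε ≠ 0 := (Valuation.ne_zero_iff v).2 hε0
    have hte : v (ι (t k) * ε) ≤ v ε := by
      rw [map_mul]
      calc v (ι (t k)) * v ε ≤ 1 * v ε := mul_le_mul' (hv1 _) le_rfl
        _ = v ε := one_mul _
    have h1 : v (coeff u (aeval (fun s => C (ι (t k) * ε) * yv K s) (map ι (aeval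
          (fun s => X s + C (c s)) ((∑ i, ∏ j, f i j) - Pool.CDep.permP (m + r) F))))) ≤
        v ε ^ (m + 1) := by
      refine (v_coeff_aeval_le v (hte.trans hε.le) _ (fun u' => ?_) (fun u' hu' => ?_) u).trans ?_
      · rw [coeff_map]
        exact hv1 _
      · rw [coeff_map, hz u' hu', map_zero]
      · exact pow_le_pow_left' hte _
    have h2 : v (b k) ≤ (v ε ^ m)⁻¹ := by
      rw [hb]
      dsimp only
      rw [map_mul, map_inv₀, map_mul, map_pow, hι π hc, mul_one]
      calc (v ε ^ m)⁻¹ * v (ι (a k)) ≤ (v ε ^ m)⁻¹ * 1 := mul_le_mul' le_rfl (hv1 _)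
        _ = _ := mul_one _
    calc v (b k) * _ ≤ (v ε ^ m)⁻¹ * v ε ^ (m + 1) := mul_le_mul' h2 h1
      _ = v ε := by
        rw [pow_succ, ← mul_assoc, inv_mul_cancel₀ (pow_ne_zero _ hvε0), one_mul]
      _ < 1 := hε

end main

end Pool.XN
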