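import Pool.Agent.XN.Null
import Pool.Agent.XP.Assembly

/-!
# XN: the final numbers
-/

set_option autoImplicit false

namespace Pool.XN

open Finset MvPolynomial Pool.Agent.Helper41.CD Pool.SM MeasureTheory

/-- the final numbers, for a bound of `M ≤ n` -/
theorem num_gen {C : ℝ} (hC : 1 ≤ C) (E n s w : ℕ) {M : ℝ} (hM0 : 0 ≤ M) (hMn : M ≤ n)
    (hs : 1 ≤ s) (hw : 1 ≤ w)
    (h : 1 ≤ n → M ≤ C * Real.log (2 * n * (s + 1)) *
      (C * (Real.log (s + n ^ 2 + 1) + (w + w) * Real.log (2 * n))) ^ E) :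
    Real.exp (1 / (12 * C) * M ^ (1 / ((E : ℝ) + 1))) ≤ s + (n : ℝ) ^ w := by
  set p : ℝ := 1 / ((E : ℝ) + 1) with hp
  have hC0 : 0 < C := by linarith
  have hE1 : (0 : ℝ) < (E : ℝ) + 1 := by positivity
  have hp0 : 0 < p := by positivity
  have hs1 : (1 : ℝ) ≤ s := by exact_mod_cast hs
  have hw1 : (1 : ℝ) ≤ w := by exact_mod_cast hw
  have hnw0 : (0 : ℝ) ≤ (n : ℝ) ^ w := by positivity
  rcases Nat.lt_or_ge n 2 with hn2 | hn2
  · -- small cases
    rcases Nat.eq_zero_or_pos n with rfl | hn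
    · rw [Nat.cast_zero] at hMn hnw0
      rw [le_antisymm hMn hM0, Real.zero_rpow hp0.ne', mul_zero, Real.exp_zero, Nat.cast_zero]
      linarith
    · obtain rfl : n = 1 := by omega
      rw [Nat.cast_one] at hMn
      rw [Nat.cast_one, one_pow]
      have h0 : M ^ p ≤ 1 := Real.rpow_le_one hM0 hMn hp0.le
      have h1 : 1 / (12 * C) * M ^ p ≤ 1 / 12 := by
        have h11 : 1 / (12 * C) ≤ 1 / 12 := by
          refine one_div_le_one_div_of_le (by norm_num) ?_
          linarith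
        have h12 : 0 ≤ M ^ p := Real.rpow_nonneg hM0 _
        have h13 : (0 : ℝ) ≤ 1 / (12 * C) := by positivity
        calc 1 / (12 * C) * M ^ p ≤ 1 / (12 * C) * 1 := mul_le_mul_of_nonneg_left h0 h13
          _ ≤ 1 / 12 := by rw [mul_one]; exact h11
      have h2 : Real.exp (1 / (12 * C) * M ^ p) ≤ Real.exp (Real.log 2) := by
        refine Real.exp_le_exp.2 (h1.trans ?_)
        have := Real.log_two_gt_d9
        linarith
      rw [Real.exp_log (by norm_num)] at h2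
      linarith
  have hn : 1 ≤ n := by omega
  have h := h hn
  have hn1 : (1 : ℝ) ≤ n := by exact_mod_cast hn
  have hn2' : (2 : ℝ) ≤ n := by exact_mod_cast hn2
  have hnw1 : (1 : ℝ) ≤ (n : ℝ) ^ w := one_le_pow₀ hn1
  have hsn : (0 : ℝ) < (s : ℝ) + (n : ℝ) ^ w := by positivity
  rw [← Real.le_log_iff_exp_le hsn]
  set L1 := Real.log ((s : ℝ) + 1) with hL1
  set L2 := Real.log (2 * (n : ℝ)) with hL2
  have hL1' : 0 ≤ L1 := Real.log_nonneg (by linarith)
  have hL2' : 0 ≤ L2 := Real.log_nonneg (by linarith)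
  have hwL : L2 ≤ w * L2 := by nlinarith
  have hwL0 : 0 ≤ w * L2 := by positivity
  have e1 : Real.log (2 * n * (s + 1)) = L2 + L1 :=
    Real.log_mul (by positivity) (by positivity)
  have e2 : Real.log ((s : ℝ) + n ^ 2 + 1) ≤ L1 + 2 * L2 := by
    have : L1 + 2 * L2 = Real.log (((s : ℝ) + 1) * (2 * n) ^ 2) := by
      rw [Real.log_mul (by positivity) (by positivity), Real.log_pow]
      push_cast
      ring
    rw [this]
    refine Real.log_le_log (by positivity) ?_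
    have h1 : (1 : ℝ) ≤ (n : ℝ) ^ 2 := one_le_pow₀ hn1
    nlinarith [mul_nonneg (show (0 : ℝ) ≤ s by positivity) (show (0 : ℝ) ≤ (n : ℝ) ^ 2 by positivity)]
  have h1 : M ≤ (4 * C * (L1 + w * L2)) ^ (E + 1) := by
    refine h.trans ?_
    rw [e1]
    have h2 : C * (Real.log ((s : ℝ) + n ^ 2 + 1) + (w + w) * L2) ≤ 4 * C * (L1 + w * L2) := by
      have : Real.log ((s : ℝ) + n ^ 2 + 1) + (w + w) * L2 ≤ 4 * (L1 + w * L2) := by linarith
      nlinarith
    have h3 : 0 ≤ C * (Real.log ((s : ℝ) + n ^ 2 + 1) + (w + w) * L2) := by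
      have : 0 ≤ Real.log ((s : ℝ) + n ^ 2 + 1) := by
        refine Real.log_nonneg ?_
        have : (0 : ℝ) ≤ (n : ℝ) ^ 2 := by positivity
        linarith
      positivity
    have h4 : C * (L2 + L1) ≤ 4 * C * (L1 + w * L2) := by nlinarith
    have h5 : 0 ≤ C * (L2 + L1) := by positivity
    calc C * (L2 + L1) * (C * (Real.log ((s : ℝ) + n ^ 2 + 1) + (w + w) * L2)) ^ E
        ≤ 4 * C * (L1 + w * L2) * (4 * C * (L1 + w * L2)) ^ E :=
          mul_le_mul h4 (pow_le_pow_left₀ h3 h2 E) (pow_nonneg h3 E) (by positivity)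
      _ = (4 * C * (L1 + w * L2)) ^ (E + 1) := by rw [pow_succ]; ring
  have hL0 : 0 ≤ 4 * C * (L1 + w * L2) := by positivity
  have h2 : M ^ p ≤ 4 * C * (L1 + w * L2) := by
    calc M ^ p ≤ ((4 * C * (L1 + w * L2)) ^ (E + 1)) ^ p :=
          Real.rpow_le_rpow hM0 h1 hp0.le
      _ = 4 * C * (L1 + w * L2) := by
          rw [← Real.rpow_natCast, ← Real.rpow_mul hL0, hp]
          push_cast
          rw [mul_one_div_cancel hE1.ne', Real.rpow_one]
  have h3 : L1 + w * L2 ≤ 3 * Real.log ((s : ℝ) + (n : ℝ) ^ w) := by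
    have e3 : 3 * Real.log ((s : ℝ) + (n : ℝ) ^ w) = Real.log (((s : ℝ) + (n : ℝ) ^ w) ^ 3) := by
      rw [Real.log_pow]
      push_cast
      ring
    have e4 : (w : ℝ) * L2 = Real.log ((2 * (n : ℝ)) ^ w) := by
      rw [Real.log_pow]
    rw [e3, e4, add_comm, ← Real.log_mul (by positivity) (by positivity)]
    refine Real.log_le_log (by positivity) ?_
    have h5 : (s : ℝ) + 1 ≤ s + (n : ℝ) ^ w := by linarith
    have h6 : (2 * (n : ℝ)) ^ w ≤ ((n : ℝ) ^ w) ^ 2 := by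
      rw [← pow_mul, mul_comm w 2, pow_mul]
      refine pow_le_pow_left₀ (by positivity) ?_ w
      nlinarith
    have h7 : ((n : ℝ) ^ w) ^ 2 ≤ ((s : ℝ) + (n : ℝ) ^ w) ^ 2 :=
      pow_le_pow_left₀ hnw0 (by linarith) 2
    calc (2 * (n : ℝ)) ^ w * ((s : ℝ) + 1)
        ≤ ((s : ℝ) + (n : ℝ) ^ w) ^ 2 * ((s : ℝ) + (n : ℝ) ^ w) :=
          mul_le_mul (h6.trans h7) h5 (by positivity) (by positivity)
      _ = ((s : ℝ) + (n : ℝ) ^ w) ^ 3 := by ring
  have h4 : M ^ p ≤ 12 * C * Real.log ((s : ℝ) + (n : ℝ) ^ w) := by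
    refine h2.trans ?_
    have := mul_le_mul_of_nonneg_left h3 (show 0 ≤ 4 * C by positivity)
    linarith
  rw [div_mul_eq_mul_div, one_mul, div_le_iff₀ (by positivity)]
  linarith

/-- from the bound for the permanent of size `m` to the final bound, with gates of class
`C ^ (m + 1)` -/
theorem num_step {C : ℝ} (hC : 1 ≤ C) (E m n s w : ℕ) (hmn : m + 1 ≤ n) (hs : 1 ≤ s) (hw : 1 ≤ w)
    (h : (m : ℝ) ≤ C * Real.log (2 * m * ((m + 1) * (s + 1) : ℕ)) *
      (C * (Real.log ((s + n ^ 2 + 1 : ℕ)) + (w + w) * Real.log (2 * m))) ^ E) :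
    Real.exp (1 / (12 * (4 * C)) * ((m + 1 : ℕ) : ℝ) ^ (1 / ((E : ℝ) + 1))) ≤
      s + (n : ℝ) ^ w := by
  have hmn' : ((m + 1 : ℕ) : ℝ) ≤ n := by exact_mod_cast hmn
  refine num_gen (C := 4 * C) (by linarith) E n s w (Nat.cast_nonneg _) hmn' hs hw fun _ => ?_
  have hs1 : (1 : ℝ) ≤ s := by exact_mod_cast hs
  have hw1 : (1 : ℝ) ≤ w := by exact_mod_cast hw
  have hm0 : (0 : ℝ) ≤ m := Nat.cast_nonneg m
  push_cast at h hmn' ⊢
  have hn1 : (1 : ℝ) ≤ n := by linarith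
  have hlog2 := Real.log_two_gt_d9
  have e1 : 0 ≤ Real.log ((s : ℝ) + n ^ 2 + 1) := Real.log_nonneg (by nlinarith)
  have e2 : Real.log 2 ≤ Real.log (2 * (n : ℝ)) :=
    Real.log_le_log (by norm_num) (by linarith)
  have e3 : 1 ≤ 4 * C * Real.log (2 * (n : ℝ) * (s + 1)) := by
    have h1 : Real.log 2 ≤ Real.log (2 * (n : ℝ) * (s + 1)) :=
      Real.log_le_log (by norm_num) (by nlinarith)
    nlinarith
  have e4 : 1 ≤ 4 * C * (Real.log ((s : ℝ) + n ^ 2 + 1) + (w + w) * Real.log (2 * (n : ℝ))) := by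
    have h1 : Real.log 2 ≤ w * Real.log (2 * (n : ℝ)) := by nlinarith
    nlinarith
  rcases Nat.eq_zero_or_pos m with rfl | hm
  · have h1 : (1 : ℝ) ≤ (4 * C * (Real.log ((s : ℝ) + n ^ 2 + 1) +
        (w + w) * Real.log (2 * (n : ℝ)))) ^ E := one_le_pow₀ e4
    calc (((0 : ℕ) : ℝ) + 1) = 1 * 1 := by norm_num
      _ ≤ _ := mul_le_mul e3 h1 (by norm_num) (by linarith)
  · have hm1 : (1 : ℝ) ≤ m := by exact_mod_cast hm
    have e5 : Real.log (2 * m * (((m : ℝ) + 1) * (s + 1))) ≤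
        2 * Real.log (2 * (n : ℝ) * (s + 1)) := by
      have h1 : 2 * Real.log (2 * (n : ℝ) * (s + 1)) =
          Real.log ((2 * (n : ℝ) * (s + 1)) ^ 2) := by
        rw [Real.log_pow]
        push_cast
        ring
      rw [h1]
      refine Real.log_le_log (by positivity) ?_
      have h2 : (m : ℝ) * ((m + 1) * (s + 1)) ≤ n * (n * (s + 1)) := by
        refine mul_le_mul (by linarith) ?_ (by positivity) (by positivity)
        exact mul_le_mul_of_nonneg_right hmn' (by positivity)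
      have h3 : (n : ℝ) * (n * (s + 1)) ≤ (n * (s + 1)) * (n * (s + 1)) := by
        refine mul_le_mul_of_nonneg_right ?_ (by positivity)
        nlinarith
      nlinarith
    have e6 : Real.log (2 * (m : ℝ)) ≤ Real.log (2 * (n : ℝ)) :=
      Real.log_le_log (by positivity) (by linarith)
    have e7 : 0 ≤ Real.log (2 * (m : ℝ)) := Real.log_nonneg (by linarith)
    have e8 : 0 ≤ Real.log (2 * (n : ℝ) * (s + 1)) := by nlinarith
    have e9 : (C * (Real.log ((s : ℝ) + n ^ 2 + 1) + (w + w) * Real.log (2 * m))) ^ E ≤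
        (4 * C * (Real.log ((s : ℝ) + n ^ 2 + 1) + (w + w) * Real.log (2 * (n : ℝ)))) ^ E := by
      refine pow_le_pow_left₀ (by positivity) ?_ E
      have h1 : (w + w) * Real.log (2 * (m : ℝ)) ≤ (w + w) * Real.log (2 * (n : ℝ)) :=
        mul_le_mul_of_nonneg_left e6 (by positivity)
      have h2 : 0 ≤ Real.log ((s : ℝ) + n ^ 2 + 1) + (w + w) * Real.log (2 * (n : ℝ)) := by
        have : 0 ≤ (w + w) * Real.log (2 * (m : ℝ)) := by positivity
        linarith
      nlinarith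
    have e10 : 0 ≤ (C * (Real.log ((s : ℝ) + n ^ 2 + 1) +
        (w + w) * Real.log (2 * m))) ^ E := by positivity
    calc (m : ℝ) + 1 ≤ 2 * m := by linarith
      _ ≤ 2 * (C * Real.log (2 * m * (((m : ℝ) + 1) * (s + 1))) *
          (C * (Real.log ((s : ℝ) + n ^ 2 + 1) + (w + w) * Real.log (2 * m))) ^ E) := by
        linarith
      _ ≤ 2 * (C * (2 * Real.log (2 * (n : ℝ) * (s + 1))) *
          (4 * C * (Real.log ((s : ℝ) + n ^ 2 + 1) +
            (w + w) * Real.log (2 * (n : ℝ)))) ^ E) := by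
        refine mul_le_mul_of_nonneg_left ?_ (by norm_num)
        refine mul_le_mul (mul_le_mul_of_nonneg_left e5 (by linarith)) e9 e10 (by positivity)
      _ = _ := by ring

/-- **smooth sums of products of subexponential size are equal to the permanent only on a closed
set of measure zero** -/
theorem null_xp : ∃ c : ℝ, 0 < c ∧ ∀ (k m r w s : ℕ)
    (f : Fin (s + 1) → Fin (s + (m + r) ^ 2 + 1) → (Fin (m + r) × Fin (m + r) → ℝ) → ℝ),
    1 ≤ r → 1 ≤ w → 1 ≤ s → (∀ i j, f i j ∈ SmCls (m + 1) w w (s + (m + r) ^ 2 + 1) k) →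
    (s : ℝ) + ((m + r : ℕ) : ℝ) ^ w <
      Real.exp (c * ((m + 1 : ℕ) : ℝ) ^ (1 / (((Nat.fib (2 * k + 4) - 2 : ℕ) : ℝ) + 1))) →
    IsClosed {x | ∑ i, ∏ j, f i j x = permF (m + r) x} ∧
      volume {x | ∑ i, ∏ j, f i j x = permF (m + r) x} = 0 := by
  obtain ⟨C, hC, h⟩ := Pool.XP.xp
  refine ⟨1 / (12 * (4 * C)), by positivity, fun k m r w s f hr hw hs hf hlt => ?_⟩
  refine null_of (by omega) ?_ f hf
  intro K Γ _ _ v f' hv hf' hcf
  have h1 := h k K Γ v m ((m + 1) * (s + 1)) (s + (m + r) ^ 2 + 1) w w f' hv (by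
    have : 1 ≤ (m + r) ^ 2 := Nat.one_le_pow _ _ (by omega)
    omega) hw hw hf' hcf
  exact absurd (num_step hC _ m (m + r) s w (by omega) hs hw h1) (not_le.2 hlt)

end Pool.XN
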