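import Pool.Agent.SM.Baire

/-!
# Networks of bounded depth with arbitrary gates of fan-in `w`: real functions

Every gate of a network with `s` gates and at most `d + 1` product or nonlinear gates on each path
is a sum of `s + 1` products of superpositions (class `GCls H w w S d`).
-/

set_option autoImplicit false

namespace Pool.XN

open Finset MvPolynomial Pool.SM

section basic

variable {σ : Type}

/-- a property of gates which holds for constants and coordinates and is kept by polynomials of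
one variable -/
structure GateProp (H : ∀ {w : ℕ}, ((Fin w → ℝ) → ℝ) → Prop) : Prop where
  const : ∀ (w : ℕ) (c : ℝ), H (w := w) fun _ => c
  proj : ∀ (w : ℕ) (i : Fin w), H (w := w) fun y => y i
  comp : ∀ (w : ℕ) (h : (Fin w → ℝ) → ℝ), H h → ∀ q : Polynomial ℝ, H fun y => q.eval (h y)

theorem contDiff_poly (m : ℕ) (q : Polynomial ℝ) : ContDiff ℝ m fun x : ℝ => q.eval x := by
  have h := q.contDiff_aeval (𝕜 := ℝ) m
  simpa only [Polynomial.coe_aeval_eq_eval] using h

theorem gateProp_contDiff (m : ℕ) : GateProp (fun h => ContDiff ℝ m h) where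
  const _ _ := contDiff_const
  proj _ i := contDiff_apply ℝ ℝ i
  comp _ _ hh q := (contDiff_poly m q).comp hh

theorem gateProp_PS (m : ℕ) : GateProp (fun h => PS m h) where
  const _ c := ⟨fun _ _ => c, fun _ => contDiff_const, fun _ => ⟨0, rfl⟩⟩
  proj _ i := ⟨fun _ y => y i, fun _ => contDiff_apply ℝ ℝ i, fun _ => ⟨0, rfl⟩⟩
  comp _ h hh q := by
    obtain ⟨g, hg, hgh⟩ := hh
    refine ⟨fun s y => q.eval (g s y), fun s => (contDiff_poly m q).comp (hg s), fun y => ?_⟩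
    obtain ⟨s, hs⟩ := hgh y
    exact ⟨s, congrArg (fun z => q.eval z) hs⟩

variable {H : ∀ {w : ℕ}, ((Fin w → ℝ) → ℝ) → Prop}

theorem gcls_comp (hH : GateProp H) {w0 w S : ℕ} (k : ℕ) {f : (σ → ℝ) → ℝ}
    (hf : f ∈ GCls H w0 w S k) (q : Polynomial ℝ) : (fun x => q.eval (f x)) ∈ GCls H w0 w S k := by
  cases k with
  | zero =>
    obtain ⟨L, h, hL, hh, rfl⟩ := hf
    exact ⟨L, fun y => q.eval (h y), hL, hH.comp _ h hh q, rfl⟩
  | succ k =>
    obtain ⟨F, h, hF, hh, rfl⟩ := hf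
    exact ⟨F, fun y => q.eval (h y), hF, hH.comp _ h hh q, rfl⟩

theorem gcls_pow (hH : GateProp H) {w0 w S : ℕ} (k : ℕ) {f : (σ → ℝ) → ℝ}
    (hf : f ∈ GCls H w0 w S k) (e : ℕ) : (fun x => f x ^ e) ∈ GCls H w0 w S k := by
  have h := gcls_comp hH k hf (Polynomial.X ^ e)
  simpa only [Polynomial.eval_pow, Polynomial.eval_X] using h

theorem gcls_smul (hH : GateProp H) {w0 w S : ℕ} (k : ℕ) {f : (σ → ℝ) → ℝ}
    (hf : f ∈ GCls H w0 w S k) (c : ℝ) : (fun x => c * f x) ∈ GCls H w0 w S k := by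
  have h := gcls_comp hH k hf (Polynomial.C c * Polynomial.X)
  simpa only [Polynomial.eval_mul, Polynomial.eval_C, Polynomial.eval_X] using h

theorem gcls_const (hH : GateProp H) {w0 w S : ℕ} (k : ℕ) (c : ℝ) :
    (fun _ => c : (σ → ℝ) → ℝ) ∈ GCls H w0 w S k := by
  induction k generalizing c with
  | zero =>
    exact ⟨fun _ => 0, fun _ => c, fun _ => by rw [totalDegree_zero]; exact Nat.zero_le 1,
      hH.const _ c, rfl⟩
  | succ k ih =>
    exact ⟨fun _ _ _ _ => 0, fun _ => c, fun _ _ _ => ih 0, hH.const _ c, rfl⟩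

theorem gcls_affine (hH : GateProp H) {w0 w S : ℕ} (hw : 1 ≤ w0) {A : MvPolynomial σ ℝ}
    (hA : A.totalDegree ≤ 1) : (fun x => eval x A) ∈ GCls H w0 w S 0 :=
  ⟨fun _ => A, fun y => y ⟨0, hw⟩, fun _ => hA, hH.proj _ _, rfl⟩

/-- a sum of products of members of the class `k` is a member of the class `k + 1` -/
theorem gcls_sum_prod (hH : GateProp H) {w0 w S : ℕ} (hw : 1 ≤ w) (k : ℕ)
    (F : Fin S → Fin S → (σ → ℝ) → ℝ) (hF : ∀ i j, F i j ∈ GCls H w0 w S k) :
    (fun x => ∑ i, ∏ j, F i j x) ∈ GCls H w0 w S (k + 1) :=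
  ⟨fun _ => F, fun y => y ⟨0, hw⟩, fun _ => hF, hH.proj _ _, rfl⟩

/-- padding: products -/
theorem exists_prod {S : ℕ} {ι : Type} [Fintype ι] (hι : Fintype.card ι ≤ S)
    {A : Set ((σ → ℝ) → ℝ)} (h1 : (fun _ => 1 : (σ → ℝ) → ℝ) ∈ A)
    (f : ι → (σ → ℝ) → ℝ) (hf : ∀ i, f i ∈ A) :
    ∃ g : Fin S → (σ → ℝ) → ℝ, (∀ j, g j ∈ A) ∧ ∀ x, ∏ j, g j x = ∏ i, f i x := by
  classical
  obtain ⟨φ⟩ : Nonempty (ι ↪ Fin S) :=
    Function.Embedding.nonempty_of_card_le (by rwa [Fintype.card_fin])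
  refine ⟨Function.extend φ f fun _ _ => 1, fun j => ?_, fun x => ?_⟩
  · by_cases hj : ∃ i, φ i = j
    · obtain ⟨i, rfl⟩ := hj
      rw [φ.injective.extend_apply]
      exact hf i
    · rw [Function.extend_apply' _ _ _ hj]
      exact h1
  · symm
    refine Fintype.prod_of_injective φ φ.injective _ _ (fun j hj => ?_) fun i => ?_
    · rw [Function.extend_apply' _ _ _ fun ⟨i, hi⟩ => hj ⟨i, hi⟩]
    · rw [φ.injective.extend_apply]

/-- padding: sums of products -/
theorem exists_sum_prod {S T : ℕ} (hS : 1 ≤ S) {ι : Type} [Fintype ι]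
    (hι : Fintype.card ι ≤ T) {A : Set ((σ → ℝ) → ℝ)} (h0 : (fun _ => 0 : (σ → ℝ) → ℝ) ∈ A)
    (f : ι → (σ → ℝ) → ℝ)
    (hf : ∀ i, ∃ g : Fin S → (σ → ℝ) → ℝ, (∀ j, g j ∈ A) ∧ ∀ x, ∏ j, g j x = f i x) :
    ∃ g : Fin T → Fin S → (σ → ℝ) → ℝ, (∀ i j, g i j ∈ A) ∧
      ∀ x, ∑ i, ∏ j, g i j x = ∑ i, f i x := by
  classical
  obtain ⟨φ⟩ : Nonempty (ι ↪ Fin T) :=
    Function.Embedding.nonempty_of_card_le (by rwa [Fintype.card_fin])
  choose g hg hgf using hf
  refine ⟨Function.extend φ g fun _ _ _ => 0, fun i j => ?_, fun x => ?_⟩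
  · by_cases hi : ∃ a, φ a = i
    · obtain ⟨a, rfl⟩ := hi
      rw [φ.injective.extend_apply]
      exact hg a j
    · rw [Function.extend_apply' _ _ _ hi]
      exact h0
  · symm
    refine Fintype.sum_of_injective φ φ.injective _ _ (fun i hi => ?_) fun a => ?_
    · rw [Function.extend_apply' _ _ _ fun ⟨i, hi'⟩ => hi ⟨i, hi'⟩]
      exact Finset.prod_eq_zero (mem_univ (⟨0, hS⟩ : Fin S)) rfl
    · rw [φ.injective.extend_apply, hgf]

theorem gcls_mono (hH : GateProp H) {w0 w S : ℕ} (hw : 1 ≤ w) (hS : 1 ≤ S) (k : ℕ)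
    {f : (σ → ℝ) → ℝ} (hf : f ∈ GCls H w0 w S k) : f ∈ GCls H w0 w S (k + 1) := by
  obtain ⟨g, hg, hgf⟩ := exists_sum_prod (T := S) (ι := Unit) hS
    (by rw [Fintype.card_unit]; exact hS) (gcls_const hH k 0) (fun _ => f) (fun _ => by
      obtain ⟨g, hg, hgf⟩ := exists_prod (S := S) (ι := Unit)
        (by rw [Fintype.card_unit]; exact hS) (gcls_const hH k 1) (fun _ => f) (fun _ => hf)
      exact ⟨g, hg, fun x => by rw [hgf]; simp⟩)
  rw [show f = fun x => ∑ i, ∏ j, g i j x from funext fun x => by rw [hgf]; simp]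
  exact gcls_sum_prod hH hw k g hg

theorem gcls_mono' (hH : GateProp H) {w0 w S : ℕ} (hw : 1 ≤ w) (hS : 1 ≤ S) {k l : ℕ}
    (hkl : k ≤ l) {f : (σ → ℝ) → ℝ} (hf : f ∈ GCls H w0 w S k) : f ∈ GCls H w0 w S l := by
  induction hkl with
  | refl => exact hf
  | step _ ih => exact gcls_mono hH hw hS _ ih

end basic

section net

variable {σ : Type} [Fintype σ]

/-- The functions `P 0, ..., P (s - 1)` are the gates of a network with at most `d` product gates
or nonlinear gates on each path. A gate `g` is a linear combination of `1`, of the variables and of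
earlier gates, or a product gate: a constant times a product of powers of variables and of earlier
gates, or a nonlinear gate: any function with the property `H` of `w` earlier gates. -/
def IsNet (H : ∀ {w : ℕ}, ((Fin w → ℝ) → ℝ) → Prop) (d w : ℕ) {s : ℕ}
    (P : Fin s → (σ → ℝ) → ℝ) : Prop :=
  ∃ lev : Fin s → ℕ, ∀ g, lev g ≤ d ∧
    ((∃ (a₀ : ℝ) (a : σ → ℝ) (c : Fin s → ℝ), (∀ h, c h ≠ 0 → h < g ∧ lev h ≤ lev g) ∧
        P g = fun x => a₀ + ∑ v, a v * x v + ∑ h, c h * P h x) ∨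
     (∃ (a₀ : ℝ) (a : σ → ℕ) (e : Fin s → ℕ), 0 < lev g ∧
        (∀ h, e h ≠ 0 → h < g ∧ lev h < lev g) ∧
        P g = fun x => a₀ * (∏ v, x v ^ a v) * ∏ h, P h x ^ e h) ∨
     (∃ (t : Fin w → Fin s) (φ : (Fin w → ℝ) → ℝ), 0 < lev g ∧
        (∀ i, t i < g ∧ lev (t i) < lev g) ∧ H φ ∧ P g = fun x => φ fun i => P (t i) x))

variable {H : ∀ {w : ℕ}, ((Fin w → ℝ) → ℝ) → Prop}
variable {d w s : ℕ} {P : Fin s → (σ → ℝ) → ℝ} {lev : Fin s → ℕ}

/-- product gates -/
def NPr (P : Fin s → (σ → ℝ) → ℝ) (lev : Fin s → ℕ) (g : Fin s) : Prop :=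
  ∃ (a₀ : ℝ) (a : σ → ℕ) (e : Fin s → ℕ), 0 < lev g ∧
    (∀ h, e h ≠ 0 → h < g ∧ lev h < lev g) ∧
    P g = fun x => a₀ * (∏ v, x v ^ a v) * ∏ h, P h x ^ e h

/-- nonlinear gates -/
def NArb (H : ∀ {w : ℕ}, ((Fin w → ℝ) → ℝ) → Prop) (w : ℕ) (P : Fin s → (σ → ℝ) → ℝ)
    (lev : Fin s → ℕ) (g : Fin s) : Prop :=
  ∃ (t : Fin w → Fin s) (φ : (Fin w → ℝ) → ℝ), 0 < lev g ∧
    (∀ i, t i < g ∧ lev (t i) < lev g) ∧ H φ ∧ P g = fun x => φ fun i => P (t i) x

/-- combinations of product gates and nonlinear gates of level at most `δ` -/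
def NRep (H : ∀ {w : ℕ}, ((Fin w → ℝ) → ℝ) → Prop) (w : ℕ) (P : Fin s → (σ → ℝ) → ℝ)
    (lev : Fin s → ℕ) (δ : ℕ) (f : (σ → ℝ) → ℝ) : Prop :=
  ∃ (A : MvPolynomial σ ℝ) (c : Fin s → ℝ), A.totalDegree ≤ 1 ∧
    (∀ h, c h ≠ 0 → (NPr P lev h ∨ NArb H w P lev h) ∧ lev h ≤ δ) ∧
    f = fun x => eval x A + ∑ h, c h * P h x

theorem NRep.mono {δ δ' : ℕ} (hδ : δ ≤ δ') {f : (σ → ℝ) → ℝ} (h : NRep H w P lev δ f) :
    NRep H w P lev δ' f := by
  obtain ⟨A, c, hA, hc, hf⟩ := h
  exact ⟨A, c, hA, fun h hh => ⟨(hc h hh).1, (hc h hh).2.trans hδ⟩, hf⟩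

theorem NRep.aff {δ : ℕ} {A : MvPolynomial σ ℝ} (hA : A.totalDegree ≤ 1) :
    NRep H w P lev δ fun x => eval x A :=
  ⟨A, 0, hA, fun h hh => absurd rfl hh, by simp⟩

theorem NRep.add {δ : ℕ} {f g : (σ → ℝ) → ℝ} (hf : NRep H w P lev δ f)
    (hg : NRep H w P lev δ g) : NRep H w P lev δ fun x => f x + g x := by
  obtain ⟨A, c, hA, hc, rfl⟩ := hf
  obtain ⟨A', c', hA', hc', rfl⟩ := hg
  refine ⟨A + A', c + c', (totalDegree_add _ _).trans (max_le hA hA'), fun h hh => ?_, ?_⟩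
  · by_cases h1 : c h = 0
    · refine hc' h fun h2 => hh ?_
      rw [Pi.add_apply, h1, h2, add_zero]
    · exact hc h h1
  · funext x
    simp only [Pi.add_apply, map_add, add_mul, sum_add_distrib]
    ring

theorem NRep.smul {δ : ℕ} (a : ℝ) {f : (σ → ℝ) → ℝ} (hf : NRep H w P lev δ f) :
    NRep H w P lev δ fun x => a * f x := by
  obtain ⟨A, c, hA, hc, rfl⟩ := hf
  refine ⟨C a * A, fun h => a * c h, ?_, fun h hh => hc h (right_ne_zero_of_mul hh), ?_⟩
  · refine (totalDegree_mul _ _).trans ?_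
    rw [totalDegree_C, zero_add]
    exact hA
  · funext x
    rw [mul_add, mul_sum, map_mul, eval_C]
    congr 1
    refine sum_congr rfl fun h _ => ?_
    rw [mul_assoc]

theorem NRep.sum {δ : ℕ} {ι : Type} (t : Finset ι) (f : ι → (σ → ℝ) → ℝ)
    (hf : ∀ i ∈ t, NRep H w P lev δ (f i)) : NRep H w P lev δ fun x => ∑ i ∈ t, f i x := by
  classical
  induction t using Finset.induction_on with
  | empty =>
    have h : NRep H w P lev δ fun x => eval x (0 : MvPolynomial σ ℝ) :=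
      NRep.aff (by rw [totalDegree_zero]; exact Nat.zero_le 1)
    simpa only [map_zero, sum_empty] using h
  | insert i t hi ih =>
    simp only [sum_insert hi]
    exact (hf i (mem_insert_self i t)).add (ih fun j hj => hf j (mem_insert_of_mem hj))

theorem NRep.pr {g : Fin s} (hg : NPr P lev g ∨ NArb H w P lev g) :
    NRep H w P lev (lev g) (P g) := by
  classical
  refine ⟨0, Pi.single g 1, by rw [totalDegree_zero]; exact Nat.zero_le 1, fun h hh => ?_, ?_⟩
  · have hhg : h = g := by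
      by_contra hne
      exact hh (Pi.single_eq_of_ne hne 1)
    rw [hhg]
    exact ⟨hg, le_rfl⟩
  · funext x
    rw [map_zero, zero_add, sum_eq_single g]
    · rw [Pi.single_eq_same, one_mul]
    · intro h _ hne
      rw [Pi.single_eq_of_ne hne, zero_mul]
    · intro h
      exact absurd (mem_univ g) h

/-- all gates are combinations of product gates and nonlinear gates of at most their level -/
theorem nrep_gate (HH : ∀ g, lev g ≤ d ∧
    ((∃ (a₀ : ℝ) (a : σ → ℝ) (c : Fin s → ℝ), (∀ h, c h ≠ 0 → h < g ∧ lev h ≤ lev g) ∧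
        P g = fun x => a₀ + ∑ v, a v * x v + ∑ h, c h * P h x) ∨
      NPr P lev g ∨ NArb H w P lev g)) (g : Fin s) :
    NRep H w P lev (lev g) (P g) := by
  induction g using WellFoundedLT.induction with
  | ind g ih =>
    rcases (HH g).2 with ⟨a₀, a, c, hc, hP⟩ | h
    · rw [hP]
      refine ((?_ : NRep H w P lev (lev g) fun _ => a₀).add
        (NRep.sum univ (fun v x => a v * x v) fun v _ => NRep.smul (a v)
          (?_ : NRep H w P lev (lev g) fun x => x v))).add
        (NRep.sum univ (fun h x => c h * P h x) fun h _ => ?_)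
      · have h := NRep.aff (H := H) (w := w) (P := P) (lev := lev) (δ := lev g)
          (A := (C a₀ : MvPolynomial σ ℝ)) (by rw [totalDegree_C]; exact Nat.zero_le 1)
        simpa only [eval_C] using h
      · have h := NRep.aff (H := H) (w := w) (P := P) (lev := lev) (δ := lev g)
          (A := (X v : MvPolynomial σ ℝ)) (by rw [totalDegree_X])
        simpa only [eval_X] using h
      · by_cases hh : c h = 0
        · have h := NRep.aff (H := H) (w := w) (P := P) (lev := lev) (δ := lev g)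
            (A := (0 : MvPolynomial σ ℝ)) (by rw [totalDegree_zero]; exact Nat.zero_le 1)
          simpa only [hh, zero_mul, map_zero] using h
        · exact ((ih h (hc h hh).1).mono (hc h hh).2).smul _
    · exact NRep.pr h

/-- a combination of product gates and nonlinear gates of level at most `δ + 1` is a sum of `T`
products of members of the class `δ` -/
theorem nrep_sum (hH : GateProp H) {S T : ℕ} (hw : 1 ≤ w) (hT : s + 1 ≤ T)
    (hS : s + Fintype.card σ + 1 ≤ S) (δ : ℕ)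
    (ih : ∀ g, lev g ≤ δ → P g ∈ GCls H w w S δ)
    (ih' : ∀ g, lev g ≤ δ + 1 → NArb H w P lev g → P g ∈ GCls H w w S δ) {f : (σ → ℝ) → ℝ}
    (hf : NRep H w P lev (δ + 1) f) :
    ∃ g : Fin T → Fin S → (σ → ℝ) → ℝ, (∀ i j, g i j ∈ GCls H w w S δ) ∧
      ∀ x, ∑ i, ∏ j, g i j x = f x := by
  classical
  have hS1 : 1 ≤ S := by omega
  have h1 : (fun _ => 1 : (σ → ℝ) → ℝ) ∈ GCls H w w S δ := gcls_const hH δ 1
  have h0 : (fun _ => 0 : (σ → ℝ) → ℝ) ∈ GCls H w w S δ := gcls_const hH δ 0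
  have haff : ∀ A : MvPolynomial σ ℝ, A.totalDegree ≤ 1 →
      (fun x => eval x A) ∈ GCls H w w S δ := fun A hA =>
    gcls_mono' hH hw hS1 (Nat.zero_le δ) (gcls_affine hH hw hA)
  have hone : ∀ A : (σ → ℝ) → ℝ, A ∈ GCls H w w S δ →
      ∃ g : Fin S → (σ → ℝ) → ℝ, (∀ j, g j ∈ GCls H w w S δ) ∧ ∀ x, ∏ j, g j x = A x := by
    intro A hA
    obtain ⟨g, hg, hgf⟩ := exists_prod (S := S) (ι := Unit)
      (by rw [Fintype.card_unit]; exact hS1) h1 (fun _ => A) (fun _ => hA)
    exact ⟨g, hg, fun x => by rw [hgf]; simp⟩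
  obtain ⟨A, c, hA, hc, rfl⟩ := hf
  obtain ⟨g, hg, hgf⟩ := exists_sum_prod (T := T) (ι := Option (Fin s)) hS1
    (by rw [Fintype.card_option, Fintype.card_fin]; exact hT) h0
    (fun o => o.elim (fun x => eval x A) fun h x => c h * P h x) (fun o => by
      cases o with
      | none => exact hone _ (haff A hA)
      | some h =>
        show ∃ g : Fin S → (σ → ℝ) → ℝ, (∀ j, g j ∈ GCls H w w S δ) ∧
            ∀ x, ∏ j, g j x = c h * P h x
        by_cases hh : c h = 0
        · obtain ⟨g, hg, hgf⟩ := hone _ h0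
          refine ⟨g, hg, fun x => ?_⟩
          rw [hgf, hh, zero_mul]
        rcases (hc h hh).1 with hpr | harb
        swap
        · exact hone _ (gcls_smul hH δ (ih' h (hc h hh).2 harb) _)
        · obtain ⟨a₀, a, e, hlev, he, hP⟩ := hpr
          have hle := (hc h hh).2
          obtain ⟨g, hg, hgf⟩ := exists_prod (S := S) (ι := Option (σ ⊕ Fin s))
            (by
              rw [Fintype.card_option, Fintype.card_sum, Fintype.card_fin]
              omega) h1
            (fun o => o.elim (fun _ => c h * a₀)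
              (Sum.elim (fun v x => x v ^ a v) fun h' x => P h' x ^ e h'))
            (fun o => by
              rcases o with _ | v | h'
              · exact gcls_const hH δ _
              · have h2 := gcls_pow hH δ (haff (X v) (by rw [totalDegree_X])) (a v)
                simp only [eval_X] at h2
                exact h2
              · show (fun x => P h' x ^ e h') ∈ GCls H w w S δ
                by_cases hh' : e h' = 0
                · simpa only [hh', pow_zero] using h1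
                · refine gcls_pow hH δ (ih h' ?_) _
                  have := (he h' hh').2
                  omega)
          refine ⟨g, hg, fun x => ?_⟩
          rw [hgf, Fintype.prod_option, Fintype.prod_sum_type]
          show c h * a₀ * ((∏ v, x v ^ a v) * ∏ h', P h' x ^ e h') = c h * P h x
          rw [hP]
          ring)
  refine ⟨g, hg, fun x => ?_⟩
  rw [hgf, Fintype.sum_option]
  rfl

theorem ngate_mem (hH : GateProp H) {S : ℕ} (hw : 1 ≤ w) (hS : s + Fintype.card σ + 1 ≤ S)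
    (HH : ∀ g, lev g ≤ d ∧
    ((∃ (a₀ : ℝ) (a : σ → ℝ) (c : Fin s → ℝ), (∀ h, c h ≠ 0 → h < g ∧ lev h ≤ lev g) ∧
        P g = fun x => a₀ + ∑ v, a v * x v + ∑ h, c h * P h x) ∨
      NPr P lev g ∨ NArb H w P lev g)) (δ : ℕ) :
    (∀ g, lev g ≤ δ → P g ∈ GCls H w w S δ) ∧
      (∀ g, lev g ≤ δ + 1 → NArb H w P lev g → P g ∈ GCls H w w S δ) := by
  induction δ with
  | zero =>
    have h0 : ∀ g, lev g ≤ 0 → ∃ A : MvPolynomial σ ℝ, A.totalDegree ≤ 1 ∧
        P g = fun x => eval x A := by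
      intro g hg
      obtain ⟨A, c, hA, hc, hP⟩ := (nrep_gate HH g).mono hg
      have hc0 : ∀ h, c h = 0 := by
        intro h
        by_contra hh
        obtain ⟨h1, hle⟩ := hc h hh
        rcases h1 with ⟨a₀, a, e, hlev, _⟩ | ⟨t, Q, hlev, _⟩ <;> omega
      refine ⟨A, hA, ?_⟩
      rw [hP]
      funext x
      rw [sum_eq_zero, add_zero]
      intro h _
      rw [hc0 h, zero_mul]
    refine ⟨fun g hg => ?_, fun g hg harb => ?_⟩
    · obtain ⟨A, hA, hP⟩ := h0 g hg
      rw [hP]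
      exact gcls_affine hH hw hA
    · obtain ⟨t, φ, hlev, ht, hφ, hP⟩ := harb
      have h1 : ∀ i, ∃ A : MvPolynomial σ ℝ, A.totalDegree ≤ 1 ∧
          P (t i) = fun x => eval x A := fun i => h0 _ (by have := (ht i).2; omega)
      choose A hA hAP using h1
      refine ⟨A, φ, hA, hφ, ?_⟩
      rw [hP]
      funext x
      simp only [hAP]
  | succ δ ih =>
    have h1 : ∀ g, lev g ≤ δ + 1 → ∃ F : Fin S → Fin S → (σ → ℝ) → ℝ,
        (∀ i j, F i j ∈ GCls H w w S δ) ∧ ∀ x, ∑ i, ∏ j, F i j x = P g x := fun g hg =>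
      nrep_sum (T := S) hH hw (by omega) hS δ ih.1 ih.2 ((nrep_gate HH g).mono hg)
    refine ⟨fun g hg => ?_, fun g hg harb => ?_⟩
    · obtain ⟨F, hF, hFg⟩ := h1 g hg
      rw [← funext hFg]
      exact gcls_sum_prod hH hw δ F hF
    · obtain ⟨t, φ, hlev, ht, hφ, hP⟩ := harb
      have h2 : ∀ i, ∃ F : Fin S → Fin S → (σ → ℝ) → ℝ,
        (∀ i j, F i j ∈ GCls H w w S δ) ∧ ∀ x, ∑ i, ∏ j, F i j x = P (t i) x := fun i =>
        h1 _ (by have := (ht i).2; omega)
      choose F hF hFP using h2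
      refine ⟨F, φ, hF, hφ, ?_⟩
      rw [hP]
      funext x
      simp only [hFP]

/-- A function computed by a network with `s` gates and at most `d + 1` product gates or
nonlinear gates on each path is a sum of `s + 1` products of `S ≥ s + N + 1` elements of the
class `d`. -/
theorem net_sumH (hH : GateProp H) {S : ℕ} (hw : 1 ≤ w) (hS : s + Fintype.card σ + 1 ≤ S)
    (hP : IsNet H (d + 1) w P) (g : Fin s) :
    ∃ f : Fin (s + 1) → Fin S → (σ → ℝ) → ℝ,
      (∀ i j, f i j ∈ GCls H w w S d) ∧ ∀ x, ∑ i, ∏ j, f i j x = P g x := by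
  obtain ⟨lev, HH⟩ := hP
  exact nrep_sum hH hw le_rfl hS d (ngate_mem hH hw hS HH d).1 (ngate_mem hH hw hS HH d).2
    ((nrep_gate HH g).mono (HH g).1)

/-- networks of gates of class `C ^ m` -/
theorem net_sumSm {m S : ℕ} (hw : 1 ≤ w) (hS : s + Fintype.card σ + 1 ≤ S)
    (hP : IsNet (fun φ => ContDiff ℝ m φ) (d + 1) w P) (g : Fin s) :
    ∃ f : Fin (s + 1) → Fin S → (σ → ℝ) → ℝ,
      (∀ i j, f i j ∈ SmCls m w w S d) ∧ ∀ x, ∑ i, ∏ j, f i j x = P g x :=
  net_sumH (gateProp_contDiff m) hw hS hP g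

/-- networks of piecewise smooth gates -/
theorem net_sumPS {m S : ℕ} (hw : 1 ≤ w) (hS : s + Fintype.card σ + 1 ≤ S)
    (hP : IsNet (fun φ => PS m φ) (d + 1) w P) (g : Fin s) :
    ∃ f : Fin (s + 1) → Fin S → (σ → ℝ) → ℝ,
      (∀ i j, f i j ∈ PsCls m w w S d) ∧ ∀ x, ∑ i, ∏ j, f i j x = P g x :=
  net_sumH (gateProp_PS m) hw hS hP g

/-- networks of piecewise smooth gates: at every point one of countably many sums of products of
superpositions of smooth functions -/
theorem net_sum {m S : ℕ} (hw : 1 ≤ w) (hS : s + Fintype.card σ + 1 ≤ S)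
    (hP : IsNet (fun φ => PS m φ) (d + 1) w P) (g : Fin s) :
    ∃ G : ℕ → Fin (s + 1) → Fin S → (σ → ℝ) → ℝ, (∀ l i j, G l i j ∈ SmCls m w w S d) ∧
      ∀ x, ∃ l, P g x = ∑ i, ∏ j, G l i j x := by
  obtain ⟨f, hf, hfP⟩ := net_sumPS hw hS hP g
  choose G hG hGf using fun i j => psCls_countable d (hf i j)
  obtain ⟨e, he⟩ := exists_surjective_nat (Fin (s + 1) → Fin S → ℕ)
  refine ⟨fun l i j => G i j (e l i j), fun l i j => hG i j _, fun x => ?_⟩
  choose c hc using fun i j => hGf i j x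
  obtain ⟨l, hl⟩ := he c
  refine ⟨l, ?_⟩
  show P g x = ∑ i, ∏ j, G i j (e l i j) x
  rw [← hfP x, hl]
  simp only [← hc]

end net

end Pool.XN
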