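import Pool.Agent.XN.Reduce
import Pool.Agent.SM.Apx
import Pool.Agent.SM.Taylor
import Pool.Agent.SM.Baire

/-!
# XN: smooth superpositions which agree with the permanent to high order at a point
-/

set_option autoImplicit false

namespace Pool.XN

open Finset MvPolynomial Pool.Agent.Helper41.CD Filter Topology Asymptotics Pool.SM

section laurent

/-- a field over the reals with a valuation which is trivial on the reals -/
theorem exists_laurent : ∃ (K Γ : Type) (_ : Field K) (_ : LinearOrderedCommGroupWithZero Γ)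
    (v : Valuation K Γ) (ι : ℝ →+* K) (ε : K),
    (∀ a, a ≠ 0 → v (ι a) = 1) ∧ ε ≠ 0 ∧ v ε < 1 := by
  refine ⟨LaurentSeries ℝ, WithZero (Multiplicative ℤ), inferInstance, inferInstance, Valued.v,
    HahnSeries.C, HahnSeries.single 1 1, ?_, ?_, ?_⟩
  · have h1 : ∀ a : ℝ, Valued.v (HahnSeries.C a : LaurentSeries ℝ) ≤
        (1 : WithZero (Multiplicative ℤ)) := by
      intro a
      have h2 := (LaurentSeries.valuation_le_iff_coeff_lt_eq_zero ℝ (D := 0)
        (f := (HahnSeries.C a : LaurentSeries ℝ))).2 (fun n hn => by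
          rw [HahnSeries.C_apply, HahnSeries.coeff_single_of_ne hn.ne])
      rw [neg_zero, WithZero.exp_zero] at h2
      exact h2
    intro a ha
    apply le_antisymm (h1 a)
    have h3 : Valued.v (HahnSeries.C a : LaurentSeries ℝ) *
        Valued.v (HahnSeries.C a⁻¹ : LaurentSeries ℝ) = (1 : WithZero (Multiplicative ℤ)) := by
      rw [← map_mul, ← map_mul, mul_inv_cancel₀ ha, map_one, map_one]
    calc (1 : WithZero (Multiplicative ℤ)) = Valued.v (HahnSeries.C a : LaurentSeries ℝ) *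
        Valued.v (HahnSeries.C a⁻¹ : LaurentSeries ℝ) := h3.symm
      _ ≤ Valued.v (HahnSeries.C a : LaurentSeries ℝ) * 1 := mul_le_mul' le_rfl (h1 _)
      _ = _ := mul_one _
  · exact HahnSeries.single_ne_zero one_ne_zero
  · rw [LaurentSeries.valuation_single_zpow, ← WithZero.exp_zero]
    exact WithZero.exp_lt_exp.2 (by norm_num)

end laurent

section taylor

variable {σ : Type} [Fintype σ]

/-- Taylor polynomials of superpositions of smooth functions -/
theorem smCls_apx {N m w0 w S : ℕ} (hm : N + 1 ≤ m) (c : σ → ℝ) :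
    ∀ (k : ℕ) {f : (σ → ℝ) → ℝ}, f ∈ SmCls m w0 w S k →
      ∃ P : MvPolynomial σ ℝ, P ∈ Cls w0 w S k ∧ Apx N c f P := by
  intro k
  induction k with
  | zero =>
    rintro f ⟨L, h, hL, hh, rfl⟩
    obtain ⟨H, hH⟩ := taylor_poly hm h hh fun l => eval c (L l)
    exact ⟨aeval L H, ⟨L, H, hL, rfl⟩, Apx.comp (fun l => Apx.poly (L l)) hH⟩
  | succ k ih =>
    rintro f ⟨F, h, hF, hh, rfl⟩
    choose P hP hPa using fun l i j => ih (hF l i j)
    obtain ⟨H, hH⟩ := taylor_poly hm h hh fun l => eval c (∑ i, ∏ j, P l i j)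
    exact ⟨aeval (fun l => ∑ i, ∏ j, P l i j) H, ⟨P, H, hP, rfl⟩,
      Apx.comp (fun l => apx_sum_prod c (F l) (P l) (hPa l)) hH⟩

omit [Fintype σ] in
theorem eval_shift (c x : σ → ℝ) (q : MvPolynomial σ ℝ) :
    eval x (aeval (fun s => X s + C (c s)) q) = eval (x + c) q := by
  induction q using MvPolynomial.induction_on with
  | C a => simp
  | add p q hp hq => rw [map_add, map_add, map_add, hp, hq]
  | mul_X p l hp => rw [map_mul, map_mul, map_mul, hp, aeval_X, eval_X, map_add, eval_X, eval_C,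
      Pi.add_apply]

/-- the coefficients of low degree of the shifted polynomial vanish -/
theorem coeff_shift_eq_zero (q : MvPolynomial σ ℝ) (c : σ → ℝ) (n : ℕ)
    (hq : (fun x : σ → ℝ => eval x q) =O[𝓝 c] fun x => ‖x - c‖ ^ (n + 1)) (u : σ →₀ ℕ)
    (hu : u.degree ≤ n) : coeff u (aeval (fun s => X s + C (c s)) q) = 0 := by
  refine coeff_eq_zero_of_isBigO_mv _ n ?_ u hu
  simp only [eval_shift]
  have hc : Tendsto (fun x : σ → ℝ => x + c) (𝓝 0) (𝓝 c) := by
    have h3 : Continuous fun x : σ → ℝ => x + c := by fun_prop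
    have h4 := h3.tendsto 0
    rwa [zero_add] at h4
  have h5 := hq.comp_tendsto hc
  refine h5.congr_right fun x => ?_
  simp [Function.comp]

end taylor

section perm

/-- the permanent as a function -/
noncomputable def permF (n : ℕ) (x : Fin n × Fin n → ℝ) : ℝ :=
  (Matrix.of fun i j => x (i, j)).permanent

theorem eval_permP (n : ℕ) (x : Fin n × Fin n → ℝ) : eval x (Pool.CDep.permP n ℝ) = permF n x := by
  unfold Pool.CDep.permP permF
  rw [Pool.CDep.map_permanent']
  congr 1
  ext i j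
  simp

/-- **the reduction for functions** -/
theorem real_reduce {m r k w0 w S T N : ℕ} (hN : m + 1 ≤ N) (hS : 1 ≤ S)
    (c : Fin (m + r) × Fin (m + r) → ℝ)
    (hc : (Matrix.of fun i j : Fin r => c (Fin.natAdd m i, Fin.natAdd m j)).permanent ≠ 0)
    (f : Fin T → Fin S → (Fin (m + r) × Fin (m + r) → ℝ) → ℝ)
    (hf : ∀ i j, f i j ∈ SmCls N w0 w S k)
    (hO : (fun x => ∑ i, ∏ j, f i j x - permF (m + r) x) =O[𝓝 c] fun x => ‖x - c‖ ^ (m + 1)) :
    ∃ (K Γ : Type) (_ : Field K) (_ : LinearOrderedCommGroupWithZero Γ) (v : Valuation K Γ)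
      (f' : Fin ((m + 1) * T) → Fin S → MvPolynomial (Fin m × Fin m) K),
      (∀ a : ℕ, a ≠ 0 → v a = 1) ∧ (∀ i j, f' i j ∈ Cls w0 w S k) ∧
      ∀ u, v (coeff u ((∑ i, ∏ j, f' i j) - Pool.CDep.permP m K)) < 1 := by
  obtain ⟨K, Γ, _, _, v, ι, ε, hι, hε0, hε⟩ := exists_laurent
  choose P hP hPa using fun i j => smCls_apx hN c k (hf i j)
  have h1 := apx_sum_prod c f P hPa
  unfold Apx at h1
  have h2 : (fun x => eval x ((∑ i, ∏ j, P i j) - Pool.CDep.permP (m + r) ℝ)) =O[𝓝 c]
      fun x => ‖x - c‖ ^ (m + 1) := by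
    refine (hO.sub h1).congr_left fun x => ?_
    rw [map_sub, eval_permP]
    ring
  obtain ⟨f', hf', hv⟩ := exists_valued v ι hι hε0 hε hS c hc P hP
    fun u hu => coeff_shift_eq_zero _ c m h2 u hu
  refine ⟨K, Γ, inferInstance, inferInstance, v, f', fun a ha => ?_, hf', hv⟩
  have h3 := hι (a : ℝ) (by exact_mod_cast ha)
  rwa [map_natCast] at h3

end perm

end Pool.XN
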